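import Pool.Agent.QF.Main
import Pool.Agent.QF.TR

/-!
# None of the algebras `ℓ¹(ℚ⁺)`, `ℓ¹(ℚ⁺, e^{-t²})`, `ℓ¹(ℚ⁺ ∩ (0,1])` factors

The element that is not a product is `f = ∑ₖ (99/100)^{⌊k/2⌋} δ_{tₖ}` with generic rationals `tₖ` of size
`2^{-100^{k+1}}`. See the files in `Pool/Agent/QF`.
-/

namespace Pool.Agent.Results.MP_7607f9_an.NoFactorization

open Pool.Agent.QF

/-- None of the algebras `ℓ¹(ℚ⁺)`, `ℓ¹(ℚ⁺, e^{-t²})`, `ℓ¹(ℚ⁺ ∩ (0,1])` factors. -/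
theorem result :
    ¬ Factors (Ell1 fun _ => 1) conv ∧
    ¬ Factors (Ell1 fun t => Real.exp (-(t.1 : ℝ) ^ 2)) conv ∧
    ¬ Factors Ell1Unit convUnit :=
  transfer no_fac

end Pool.Agent.Results.MP_7607f9_an.NoFactorization
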