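import Mathlib

/-!
# `A = A²` for the `ℓ¹` algebras on the positive rationals

We show that in each of the three commutative Banach algebras `ℓ¹(ℚ⁺)`, `ℓ¹(ℚ⁺, exp(-t²))` and
`ℓ¹(ℚ⁺ ∩ (0,1])` every element is a sum of two products; in particular `A² = A`.

Idea.  Let `δ_p` be the point masses.  For a given `a` choose rationals `p_k` going to `0` very
quickly and put `d_k = δ_{p_k}`, `G₀ = ∑ 2^{-2i} d_{2i}` and `G₁ = ∑ 2^{-(2i+1)} d_{2i+1}`.
A truncated geometric series shows that `D_k = d_k^{2k+10}` satisfies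
`D_k = G h_k + U_k D_{k-1} + V_k D_{k+1}` with `G` one of `G₀, G₁`, where `U_k`, `V_k` are small
relative to the growth of `C_k = 2^{(k+3)²}`.  Solving this tridiagonal system gives
`D_k = G₀ α_k + G₁ β_k` with `‖α_k‖, ‖β_k‖ ≤ 2 C_k`.  Finally `a = ∑ D_k b_k` with
`∑ C_k ‖b_k‖ < ∞`, whence `a = G₀ (∑ α_k b_k) + G₁ (∑ β_k b_k)`.
-/

namespace Pool.Agent.Results.MP_7607f9_an.TwoProducts

open Filter Topology
open scoped ENNReal

/-! ### The objects of the statement -/

/-- The strictly positive rationals `ℚ⁺`. -/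
abbrev QPos : Type := {q : ℚ // 0 < q}

/-- The rationals in `(0,1]`. -/
abbrev QUnit : Type := {q : ℚ // 0 < q ∧ q ≤ 1}

/-- `ℓ¹(ℚ⁺, ω)`: the functions `f : ℚ⁺ → ℂ` with `∑ |f t| ω t < ∞`. -/
def Ell1 (ω : QPos → ℝ) : Set (QPos → ℂ) := {f | Summable fun t => ‖f t‖ * ω t}

/-- Convolution on `ℚ⁺`: `(f*g)(t) = ∑_{s+u=t} f(s) g(u)`. -/
noncomputable def conv (f g : QPos → ℂ) : QPos → ℂ := fun t =>
  ∑' p : {p : QPos × QPos // p.1.1 + p.2.1 = t.1}, f p.1.1 * g p.1.2

/-- `ℓ¹(ℚ⁺ ∩ (0,1])`. -/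
def Ell1Unit : Set (QUnit → ℂ) := {f | Summable fun t => ‖f t‖}

/-- Truncated convolution on `ℚ⁺ ∩ (0,1]`. -/
noncomputable def convUnit (f g : QUnit → ℂ) : QUnit → ℂ := fun t =>
  ∑' p : {p : QUnit × QUnit // p.1.1 + p.2.1 = t.1}, f p.1.1 * g p.1.2

/-- Every element of `A` is a sum of two products of elements of `A`. -/
def SumOfTwoProducts {I : Type} (A : Set (I → ℂ)) (mul : (I → ℂ) → (I → ℂ) → (I → ℂ)) : Prop :=
  ∀ a ∈ A, ∃ b₁ ∈ A, ∃ c₁ ∈ A, ∃ b₂ ∈ A, ∃ c₂ ∈ A, a = mul b₁ c₁ + mul b₂ c₂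

/-- `A² = A`, where `A²` is the linear span of the products of elements of `A`. -/
def SquareEqSelf {I : Type} (A : Set (I → ℂ)) (mul : (I → ℂ) → (I → ℂ) → (I → ℂ)) : Prop :=
  (Submodule.span ℂ {h : I → ℂ | ∃ b ∈ A, ∃ c ∈ A, h = mul b c} : Set (I → ℂ)) = A

/-! ### Tridiagonal systems and the abstract theorem -/


section tridiag

variable {R : Type*} [NormedCommRing R] [CompleteSpace R]

/-- Solving a diagonally dominated tridiagonal system in a Banach ring. -/
theorem tridiag_exists (h U V : ℕ → R) (C : ℕ → ℝ) (hC : ∀ k, 0 < C k)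
    (hh : ∀ k, ‖h k‖ ≤ C k) (hU : ∀ k, ‖U k‖ * C (k - 1) ≤ C k / 4)
    (hV : ∀ k, ‖V k‖ * C (k + 1) ≤ C k / 4) :
    ∃ α : ℕ → R, (∀ k, ‖α k‖ ≤ 2 * C k) ∧
      ∀ k, α k = h k + U k * α (k - 1) + V k * α (k + 1) := by
  classical
  let step : (ℕ → R) → (ℕ → R) := fun x k => h k + U k * x (k - 1) + V k * x (k + 1)
  let x : ℕ → ℕ → R := fun n => step^[n] 0
  have hx0 : x 0 = 0 := rfl
  have hxs : ∀ n, x (n + 1) = step (x n) := fun n => Function.iterate_succ_apply' step n 0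
  have hdiff : ∀ n k, ‖x (n + 1) k - x n k‖ ≤ C k * (1 / 2 : ℝ) ^ n := by
    intro n
    induction n with
    | zero =>
      intro k
      rw [hxs 0, hx0]
      simpa [step] using hh k
    | succ n ih =>
      intro k
      have e1 : x (n + 1 + 1) k - x (n + 1) k
          = U k * (x (n + 1) (k - 1) - x n (k - 1)) + V k * (x (n + 1) (k + 1) - x n (k + 1)) := by
        rw [hxs (n + 1)]
        nth_rewrite 2 [hxs n]
        simp only [step]
        ring
      rw [e1]
      have hU' : ‖U k * (x (n + 1) (k - 1) - x n (k - 1))‖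
          ≤ (C k / 4) * (1 / 2 : ℝ) ^ n := by
        calc ‖U k * (x (n + 1) (k - 1) - x n (k - 1))‖
            ≤ ‖U k‖ * ‖x (n + 1) (k - 1) - x n (k - 1)‖ := norm_mul_le _ _
          _ ≤ ‖U k‖ * (C (k - 1) * (1 / 2 : ℝ) ^ n) := by
              gcongr
              exact ih (k - 1)
          _ = (‖U k‖ * C (k - 1)) * (1 / 2 : ℝ) ^ n := by ring
          _ ≤ (C k / 4) * (1 / 2 : ℝ) ^ n := by
              gcongr
              exact hU k
      have hV' : ‖V k * (x (n + 1) (k + 1) - x n (k + 1))‖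
          ≤ (C k / 4) * (1 / 2 : ℝ) ^ n := by
        calc ‖V k * (x (n + 1) (k + 1) - x n (k + 1))‖
            ≤ ‖V k‖ * ‖x (n + 1) (k + 1) - x n (k + 1)‖ := norm_mul_le _ _
          _ ≤ ‖V k‖ * (C (k + 1) * (1 / 2 : ℝ) ^ n) := by
              gcongr
              exact ih (k + 1)
          _ = (‖V k‖ * C (k + 1)) * (1 / 2 : ℝ) ^ n := by ring
          _ ≤ (C k / 4) * (1 / 2 : ℝ) ^ n := by
              gcongr
              exact hV k
      calc _ ≤ _ := norm_add_le _ _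
        _ ≤ (C k / 4) * (1 / 2 : ℝ) ^ n + (C k / 4) * (1 / 2 : ℝ) ^ n := add_le_add hU' hV'
        _ = C k * (1 / 2 : ℝ) ^ (n + 1) := by ring
  have hdist : ∀ k n, dist (x n k) (x (n + 1) k) ≤ C k * (1 / 2 : ℝ) ^ n := by
    intro k n
    rw [dist_comm, dist_eq_norm]
    exact hdiff n k
  have hcauchy : ∀ k, CauchySeq (fun n => x n k) := fun k =>
    cauchySeq_of_le_geometric (1 / 2) (C k) (by norm_num) (hdist k)
  choose α hα using fun k => cauchySeq_tendsto_of_complete (hcauchy k)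
  refine ⟨α, ?_, ?_⟩
  · intro k
    have := dist_le_of_le_geometric_of_tendsto₀ (1 / 2) (C k) (by norm_num) (hdist k) (hα k)
    rw [dist_eq_norm, hx0] at this
    simp only [Pi.zero_apply, zero_sub, norm_neg] at this
    have h2 : C k / (1 - 1 / 2) = 2 * C k := by ring
    rwa [h2] at this
  · intro k
    have h1 : Tendsto (fun n => x (n + 1) k) atTop (𝓝 (α k)) :=
      (hα k).comp (tendsto_add_atTop_nat 1)
    have h2 : Tendsto (fun n => x (n + 1) k) atTop
        (𝓝 (h k + U k * α (k - 1) + V k * α (k + 1))) := by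
      have : (fun n => x (n + 1) k) = fun n => h k + U k * x n (k - 1) + V k * x n (k + 1) := by
        funext n
        rw [hxs n]
      rw [this]
      exact ((tendsto_const_nhds.add ((hα (k - 1)).const_mul (U k))).add
        ((hα (k + 1)).const_mul (V k)))
    exact tendsto_nhds_unique h1 h2

omit [CompleteSpace R] in
theorem tridiag_unique (U V δ : ℕ → R) (C : ℕ → ℝ) (hC : ∀ k, 0 < C k) (K : ℝ)
    (hU : ∀ k, ‖U k‖ * C (k - 1) ≤ C k / 4)
    (hV : ∀ k, ‖V k‖ * C (k + 1) ≤ C k / 4)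
    (hK : ∀ k, ‖δ k‖ ≤ K * C k)
    (hδ : ∀ k, δ k = U k * δ (k - 1) + V k * δ (k + 1)) : ∀ k, δ k = 0 := by
  have hK0 : 0 ≤ K := by
    have := (norm_nonneg (δ 0)).trans (hK 0)
    by_contra hneg
    push Not at hneg
    nlinarith [hC 0]
  have key : ∀ n k, ‖δ k‖ ≤ K * C k * (1 / 2 : ℝ) ^ n := by
    intro n
    induction n with
    | zero => intro k; simpa using hK k
    | succ n ih =>
      intro k
      rw [hδ k]
      have hU' : ‖U k * δ (k - 1)‖ ≤ K * (C k / 4) * (1 / 2 : ℝ) ^ n := by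
        calc ‖U k * δ (k - 1)‖ ≤ ‖U k‖ * ‖δ (k - 1)‖ := norm_mul_le _ _
          _ ≤ ‖U k‖ * (K * C (k - 1) * (1 / 2 : ℝ) ^ n) := by
              gcongr
              exact ih (k - 1)
          _ = K * (‖U k‖ * C (k - 1)) * (1 / 2 : ℝ) ^ n := by ring
          _ ≤ K * (C k / 4) * (1 / 2 : ℝ) ^ n := by
              gcongr
              exact hU k
      have hV' : ‖V k * δ (k + 1)‖ ≤ K * (C k / 4) * (1 / 2 : ℝ) ^ n := by
        calc ‖V k * δ (k + 1)‖ ≤ ‖V k‖ * ‖δ (k + 1)‖ := norm_mul_le _ _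
          _ ≤ ‖V k‖ * (K * C (k + 1) * (1 / 2 : ℝ) ^ n) := by
              gcongr
              exact ih (k + 1)
          _ = K * (‖V k‖ * C (k + 1)) * (1 / 2 : ℝ) ^ n := by ring
          _ ≤ K * (C k / 4) * (1 / 2 : ℝ) ^ n := by
              gcongr
              exact hV k
      calc _ ≤ _ := norm_add_le _ _
        _ ≤ K * (C k / 4) * (1 / 2 : ℝ) ^ n + K * (C k / 4) * (1 / 2 : ℝ) ^ n := add_le_add hU' hV'
        _ = K * C k * (1 / 2 : ℝ) ^ (n + 1) := by ring
  intro k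
  have hlim : Tendsto (fun n : ℕ => K * C k * (1 / 2 : ℝ) ^ n) atTop (𝓝 (K * C k * 0)) :=
    (tendsto_pow_atTop_nhds_zero_of_lt_one (by norm_num) (by norm_num)).const_mul _
  rw [mul_zero] at hlim
  have : ‖δ k‖ ≤ 0 := ge_of_tendsto' hlim (fun n => key n k)
  exact norm_le_zero_iff.mp this

end tridiag

section abstract

variable {R : Type*} [NormedCommRing R] [NormedAlgebra ℝ R] [NormOneClass R] [CompleteSpace R]

/-- tail sums `∑_{i} 2^{-(k+2i)} d_{k+2i}` -/
noncomputable def gtail (d : ℕ → R) (k : ℕ) : R := ∑' i : ℕ, ((1 / 2 : ℝ) ^ (k + 2 * i)) • d (k + 2 * i)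

omit [NormOneClass R] in
theorem gtail_summable (d : ℕ → R) (hd : ∀ j, ‖d j‖ ≤ 1) (k : ℕ) :
    Summable (fun i : ℕ => ((1 / 2 : ℝ) ^ (k + 2 * i)) • d (k + 2 * i)) := by
  apply Summable.of_norm_bounded (g := fun i : ℕ => (1 / 2 : ℝ) ^ k * (1 / 4 : ℝ) ^ i)
  · exact (summable_geometric_of_lt_one (by norm_num) (by norm_num)).mul_left _
  · intro i
    rw [norm_smul, Real.norm_of_nonneg (by positivity)]
    calc (1 / 2 : ℝ) ^ (k + 2 * i) * ‖d (k + 2 * i)‖ ≤ (1 / 2 : ℝ) ^ (k + 2 * i) * 1 := by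
          gcongr; exact hd _
      _ = (1 / 2 : ℝ) ^ k * (1 / 4 : ℝ) ^ i := by
          rw [pow_add, pow_mul]; norm_num

omit [NormOneClass R] in
theorem gtail_norm (d : ℕ → R) (hd : ∀ j, ‖d j‖ ≤ 1) (k : ℕ) :
    ‖gtail d k‖ ≤ (4 / 3) * (1 / 2 : ℝ) ^ k := by
  have h1 : ∀ i : ℕ, ‖((1 / 2 : ℝ) ^ (k + 2 * i)) • d (k + 2 * i)‖ ≤ (1 / 2 : ℝ) ^ k * (1 / 4 : ℝ) ^ i := by
    intro i
    rw [norm_smul, Real.norm_of_nonneg (by positivity)]
    calc (1 / 2 : ℝ) ^ (k + 2 * i) * ‖d (k + 2 * i)‖ ≤ (1 / 2 : ℝ) ^ (k + 2 * i) * 1 := by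
          gcongr; exact hd _
      _ = (1 / 2 : ℝ) ^ k * (1 / 4 : ℝ) ^ i := by
          rw [pow_add, pow_mul]; norm_num
  have h2 : HasSum (fun i : ℕ => (1 / 2 : ℝ) ^ k * (1 / 4 : ℝ) ^ i) ((1 / 2 : ℝ) ^ k * (1 - 1 / 4)⁻¹) :=
    (hasSum_geometric_of_lt_one (by norm_num) (by norm_num)).mul_left _
  have := tsum_of_norm_bounded h2 h1
  unfold gtail
  refine this.trans (le_of_eq ?_)
  ring

omit [NormOneClass R] in
theorem gtail_step (d : ℕ → R) (hd : ∀ j, ‖d j‖ ≤ 1) (k : ℕ) :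
    gtail d k = ((1 / 2 : ℝ) ^ k) • d k + gtail d (k + 2) := by
  unfold gtail
  rw [(gtail_summable d hd k).tsum_eq_zero_add]
  congr 1
  apply tsum_congr
  intro i
  have : k + 2 * (i + 1) = k + 2 + 2 * i := by ring
  rw [this]

/-- the geometric sum identity -/
theorem geom_identity (x r : R) (ε : ℝ) (hε : ε ≠ 0) (N : ℕ) :
    (ε • x + r) * ((ε⁻¹) ^ N • (x * ∑ i ∈ Finset.range N, (ε • x) ^ i * (-r) ^ (N - 1 - i)))
      = x ^ (N + 1) - (ε⁻¹) ^ N • (x * (-r) ^ N) := by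
  have h := (Commute.all (ε • x) (-r)).geom_sum₂_mul N
  have h' : (ε • x + r) * ∑ i ∈ Finset.range N, (ε • x) ^ i * (-r) ^ (N - 1 - i)
      = (ε • x) ^ N - (-r) ^ N := by
    rw [← h]; ring
  calc (ε • x + r) * ((ε⁻¹) ^ N • (x * ∑ i ∈ Finset.range N, (ε • x) ^ i * (-r) ^ (N - 1 - i)))
      = (ε⁻¹) ^ N • (x * ((ε • x + r) * ∑ i ∈ Finset.range N, (ε • x) ^ i * (-r) ^ (N - 1 - i))) := by
        rw [mul_smul_comm]; congr 1; ring
    _ = (ε⁻¹) ^ N • (x * ((ε • x) ^ N - (-r) ^ N)) := by rw [h']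
    _ = x ^ (N + 1) - (ε⁻¹) ^ N • (x * (-r) ^ N) := by
        rw [mul_sub, smul_sub, smul_pow, mul_smul_comm, smul_smul, ← mul_pow,
          inv_mul_cancel₀ hε, one_pow, one_smul]
        congr 1
        ring

theorem geom_norm (x r : R) (ε : ℝ) (hε : 0 < ε) (hx : ‖x‖ ≤ 1) (hr : ‖r‖ ≤ ε / 3) (N : ℕ) :
    ‖(ε⁻¹) ^ N • (x * ∑ i ∈ Finset.range N, (ε • x) ^ i * (-r) ^ (N - 1 - i))‖ ≤ 3 / 2 * ε⁻¹ := by
  rcases Nat.eq_zero_or_pos N with hN | hN
  · subst hN
    simp only [Finset.range_zero, Finset.sum_empty, mul_zero, smul_zero, norm_zero]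
    positivity
  have hterm : ∀ i ∈ Finset.range N, ‖(ε • x) ^ i * (-r) ^ (N - 1 - i)‖
      ≤ ε ^ (N - 1) * (1 / 3 : ℝ) ^ (N - 1 - i) := by
    intro i hi
    have hi' : i < N := Finset.mem_range.mp hi
    have h1 : ‖(ε • x) ^ i‖ ≤ ε ^ i := by
      calc ‖(ε • x) ^ i‖ ≤ ‖ε • x‖ ^ i := norm_pow_le _ _
        _ ≤ ε ^ i := by
            gcongr
            rw [norm_smul, Real.norm_of_nonneg hε.le]
            nlinarith
    have h2 : ‖(-r) ^ (N - 1 - i)‖ ≤ (ε / 3) ^ (N - 1 - i) := by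
      calc ‖(-r) ^ (N - 1 - i)‖ ≤ ‖-r‖ ^ (N - 1 - i) := norm_pow_le _ _
        _ ≤ _ := by
            gcongr
            rwa [norm_neg]
    calc ‖(ε • x) ^ i * (-r) ^ (N - 1 - i)‖ ≤ ‖(ε • x) ^ i‖ * ‖(-r) ^ (N - 1 - i)‖ := norm_mul_le _ _
      _ ≤ ε ^ i * (ε / 3) ^ (N - 1 - i) := by gcongr
      _ = ε ^ (N - 1) * (1 / 3 : ℝ) ^ (N - 1 - i) := by
          have : N - 1 = i + (N - 1 - i) := by omega
          conv_rhs => rw [this, pow_add]
          rw [show (i + (N - 1 - i) - i) = N - 1 - i by omega]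
          rw [div_eq_mul_one_div, mul_pow]
          ring
  have hsum : ‖∑ i ∈ Finset.range N, (ε • x) ^ i * (-r) ^ (N - 1 - i)‖ ≤ ε ^ (N - 1) * (3 / 2) := by
    calc ‖∑ i ∈ Finset.range N, (ε • x) ^ i * (-r) ^ (N - 1 - i)‖
        ≤ ∑ i ∈ Finset.range N, ε ^ (N - 1) * (1 / 3 : ℝ) ^ (N - 1 - i) := norm_sum_le_of_le _ hterm
      _ = ε ^ (N - 1) * ∑ i ∈ Finset.range N, (1 / 3 : ℝ) ^ (N - 1 - i) := by rw [Finset.mul_sum]
      _ = ε ^ (N - 1) * ∑ i ∈ Finset.range N, (1 / 3 : ℝ) ^ i := by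
          rw [Finset.sum_range_reflect (fun i => (1 / 3 : ℝ) ^ i) N]
      _ ≤ ε ^ (N - 1) * (3 / 2) := by
          gcongr
          have h3 : ∑ i ∈ Finset.range N, (1 / 3 : ℝ) ^ i ≤ ∑' i : ℕ, (1 / 3 : ℝ) ^ i :=
            (summable_geometric_of_lt_one (by norm_num) (by norm_num)).sum_le_tsum _
              (fun i _ => by positivity)
          rw [tsum_geometric_of_lt_one (by norm_num) (by norm_num)] at h3
          norm_num at h3 ⊢
          exact h3
  calc _ = (ε⁻¹) ^ N * ‖x * ∑ i ∈ Finset.range N, (ε • x) ^ i * (-r) ^ (N - 1 - i)‖ := by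
        rw [norm_smul, Real.norm_of_nonneg (by positivity)]
    _ ≤ (ε⁻¹) ^ N * (‖x‖ * ‖∑ i ∈ Finset.range N, (ε • x) ^ i * (-r) ^ (N - 1 - i)‖) := by
        gcongr
        exact norm_mul_le _ _
    _ ≤ (ε⁻¹) ^ N * (1 * (ε ^ (N - 1) * (3 / 2))) := by gcongr
    _ = 3 / 2 * ε⁻¹ := by
        obtain ⟨m, rfl⟩ : ∃ m, N = m + 1 := ⟨N - 1, by omega⟩
        simp only [Nat.add_sub_cancel]
        rw [pow_succ]
        have : (ε⁻¹) ^ m * ε ^ m = 1 := by rw [← mul_pow, inv_mul_cancel₀ hε.ne', one_pow]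
        linear_combination (3 / 2 * ε⁻¹) * this

/-- the parity selector -/
noncomputable def Gp (d : ℕ → R) (k : ℕ) : R := if Even k then gtail d 0 else gtail d 1

omit [NormOneClass R] in
theorem exists_Q (d e : ℕ → R) (hd : ∀ j, ‖d j‖ ≤ 1) (he : ∀ j, ‖e j‖ ≤ 1)
    (hde : ∀ j, d j = d (j + 1) ^ (2 * (j + 1) + 10) * e j) (m : ℕ) :
    ∃ Q : R, Gp d (m + 1) - gtail d (m + 1) = d m ^ (2 * m + 10) * Q ∧
      ‖Q‖ ≤ 2 - (4 / 3) * (1 / 2 : ℝ) ^ (m + 1) := by
  induction m using Nat.twoStepInduction with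
  | zero =>
    refine ⟨0, ?_, ?_⟩
    · simp [Gp]
    · norm_num
  | one =>
    refine ⟨e 0, ?_, ?_⟩
    · have h0 := gtail_step d hd 0
      have : Gp d (1 + 1) = gtail d 0 := by simp [Gp]
      rw [this, h0]
      have h1 := hde 0
      simp only [pow_zero, one_smul, zero_add] at *
      rw [show (1 + 1 : ℕ) = 2 from rfl]
      rw [h1]
      simp
    · have := he 0
      norm_num
      linarith
  | more m ih1 _ =>
    obtain ⟨Q, hQ, hQn⟩ := ih1
    -- d m ^ (2m+10) = d (m+2)^(..) * cof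
    have hpos : (2 * m + 10) = (2 * m + 9) + 1 := rfl
    have hcof : d m ^ (2 * m + 10)
        = d (m + 2) ^ (2 * (m + 2) + 10)
          * (e (m + 1) * d (m + 1) ^ (2 * m + 11) * e m * d m ^ (2 * m + 9)) := by
      calc d m ^ (2 * m + 10) = d m * d m ^ (2 * m + 9) := by rw [hpos, pow_succ]; ring
        _ = (d (m + 1) ^ (2 * (m + 1) + 10) * e m) * d m ^ (2 * m + 9) := by rw [← hde m]
        _ = (d (m + 1) * d (m + 1) ^ (2 * m + 11) * e m) * d m ^ (2 * m + 9) := by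
            rw [show 2 * (m + 1) + 10 = (2 * m + 11) + 1 by ring, pow_succ]; ring
        _ = ((d (m + 2) ^ (2 * (m + 2) + 10) * e (m + 1)) * d (m + 1) ^ (2 * m + 11) * e m)
              * d m ^ (2 * m + 9) := by
            rw [show d (m + 1) * d (m + 1) ^ (2 * m + 11)
              = (d (m + 2) ^ (2 * (m + 2) + 10) * e (m + 1)) * d (m + 1) ^ (2 * m + 11) by
                rw [← hde (m + 1)]]
        _ = _ := by ring
    have hcn : ‖e (m + 1) * d (m + 1) ^ (2 * m + 11) * e m * d m ^ (2 * m + 9)‖ ≤ 1 := by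
      have a1 : ‖d (m + 1) ^ (2 * m + 11)‖ ≤ 1 :=
        (norm_pow_le' _ (by omega)).trans (pow_le_one₀ (norm_nonneg _) (hd _))
      have a2 : ‖d m ^ (2 * m + 9)‖ ≤ 1 :=
        (norm_pow_le' _ (by omega)).trans (pow_le_one₀ (norm_nonneg _) (hd _))
      calc ‖e (m + 1) * d (m + 1) ^ (2 * m + 11) * e m * d m ^ (2 * m + 9)‖
          ≤ ‖e (m + 1) * d (m + 1) ^ (2 * m + 11) * e m‖ * ‖d m ^ (2 * m + 9)‖ := norm_mul_le _ _
        _ ≤ (‖e (m + 1) * d (m + 1) ^ (2 * m + 11)‖ * ‖e m‖) * ‖d m ^ (2 * m + 9)‖ := by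
            gcongr; exact norm_mul_le _ _
        _ ≤ ((‖e (m + 1)‖ * ‖d (m + 1) ^ (2 * m + 11)‖) * ‖e m‖) * ‖d m ^ (2 * m + 9)‖ := by
            gcongr; exact norm_mul_le _ _
        _ ≤ ((1 * 1) * 1) * 1 := by
            gcongr
            · exact he _
            · exact he _
        _ = 1 := by norm_num
    refine ⟨(e (m + 1) * d (m + 1) ^ (2 * m + 11) * e m * d m ^ (2 * m + 9)) * Q
      + ((1 / 2 : ℝ) ^ (m + 1)) • e (m + 1), ?_, ?_⟩
    · have hpar : Gp d (m + 2 + 1) = Gp d (m + 1) := by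
        unfold Gp
        have : Even (m + 2 + 1) ↔ Even (m + 1) := by
          rw [show m + 2 + 1 = (m + 1) + 2 by ring]
          simp [Nat.even_add]
        simp only [this]
      have hstep := gtail_step d hd (m + 1)
      rw [show m + 1 + 2 = m + 2 + 1 by ring] at hstep
      have e1 : Gp d (m + 2 + 1) - gtail d (m + 2 + 1)
          = (Gp d (m + 1) - gtail d (m + 1)) + ((1 / 2 : ℝ) ^ (m + 1)) • d (m + 1) := by
        rw [hpar, hstep]; ring
      rw [e1, hQ, mul_add, mul_smul_comm, hcof]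
      have h2 := hde (m + 1)
      rw [show m + 1 + 1 = m + 2 by ring] at h2
      rw [← h2]
      ring
    · calc _ ≤ ‖(e (m + 1) * d (m + 1) ^ (2 * m + 11) * e m * d m ^ (2 * m + 9)) * Q‖
            + ‖((1 / 2 : ℝ) ^ (m + 1)) • e (m + 1)‖ := norm_add_le _ _
        _ ≤ 1 * ‖Q‖ + (1 / 2 : ℝ) ^ (m + 1) * 1 := by
            gcongr
            · exact (norm_mul_le _ _).trans (by gcongr)
            · rw [norm_smul, Real.norm_of_nonneg (by positivity)]
              gcongr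
              exact he _
        _ ≤ 2 - (4 / 3) * (1 / 2 : ℝ) ^ (m + 2 + 1) := by
            rw [show m + 2 + 1 = (m + 1) + 2 by ring, pow_add _ (m + 1) 2]
            nlinarith [hQn]

/-- Abstract form: the powers `d k ^ (2k+10)` lie in the ideal generated by the two sparse sums,
with controlled coefficients. -/
theorem abstract_main (d e : ℕ → R) (hd : ∀ j, ‖d j‖ ≤ 1) (he : ∀ j, ‖e j‖ ≤ 1)
    (hde : ∀ j, d j = d (j + 1) ^ (2 * (j + 1) + 10) * e j) :
    ∃ α β : ℕ → R, (∀ k, ‖α k‖ ≤ 2 * (2 : ℝ) ^ ((k + 3) ^ 2)) ∧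
      (∀ k, ‖β k‖ ≤ 2 * (2 : ℝ) ^ ((k + 3) ^ 2)) ∧
      ∀ k, d k ^ (2 * k + 10) = gtail d 0 * α k + gtail d 1 * β k := by
  classical
  set C : ℕ → ℝ := fun k => (2 : ℝ) ^ ((k + 3) ^ 2) with hCdef
  have hC : ∀ k, 0 < C k := fun k => by simp only [hCdef]; positivity
  set ε : ℕ → ℝ := fun k => (1 / 2 : ℝ) ^ k with hεdef
  have hε : ∀ k, 0 < ε k := fun k => by simp only [hεdef]; positivity
  have hεinv : ∀ k, (ε k)⁻¹ = 2 ^ k := fun k => by simp [hεdef]
  set r : ℕ → R := fun k => gtail d (k + 2) with hrdef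
  have hr : ∀ k, ‖r k‖ ≤ ε k / 3 := by
    intro k
    refine (gtail_norm d hd (k + 2)).trans (le_of_eq ?_)
    simp only [hεdef]
    rw [pow_add]
    ring
  set h : ℕ → R := fun k => ((ε k)⁻¹) ^ (2 * k + 9) •
    (d k * ∑ i ∈ Finset.range (2 * k + 9), (ε k • d k) ^ i * (-(r k)) ^ (2 * k + 9 - 1 - i)) with hhdef
  have hhn : ∀ k, ‖h k‖ ≤ 3 / 2 * 2 ^ k := by
    intro k
    have := geom_norm (d k) (r k) (ε k) (hε k) (hd k) (hr k) (2 * k + 9)
    refine this.trans (le_of_eq ?_)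
    rw [hεinv]
  have hhid : ∀ k, (ε k • d k + r k) * h k
      = d k ^ (2 * k + 9 + 1) - ((ε k)⁻¹) ^ (2 * k + 9) • (d k * (-(r k)) ^ (2 * k + 9)) := by
    intro k
    exact geom_identity (d k) (r k) (ε k) (hε k).ne' (2 * k + 9)
  choose Q hQ hQn using exists_Q d e hd he hde
  have hQn2 : ∀ m, ‖Q m‖ ≤ 2 := fun m => (hQn m).trans (by
    have : (0 : ℝ) < (1 / 2 : ℝ) ^ (m + 1) := by positivity
    linarith)
  set U : ℕ → R := fun k => match k with
    | 0 => 0
    | m + 1 => -(Q m * h (m + 1)) with hUdef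
  set V : ℕ → R := fun k => ((ε k)⁻¹) ^ (2 * k + 9) • (e k * (-(r k)) ^ (2 * k + 9)) with hVdef
  -- norm bounds for U, V
  have hU : ∀ k, ‖U k‖ * C (k - 1) ≤ C k / 4 := by
    intro k
    cases k with
    | zero =>
      simp only [hUdef, norm_zero, zero_mul]
      have := hC 0
      positivity
    | succ m =>
      simp only [hUdef, norm_neg, Nat.add_sub_cancel]
      have h1 : ‖Q m * h (m + 1)‖ ≤ 2 * (3 / 2 * 2 ^ (m + 1)) :=
        (norm_mul_le _ _).trans (mul_le_mul (hQn2 m) (hhn (m + 1)) (norm_nonneg _) (by norm_num))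
      have h2 : C (m + 1) = C m * 2 ^ (2 * m + 7) := by
        simp only [hCdef]
        rw [← pow_add]
        congr 1
        ring
      rw [h2]
      calc ‖Q m * h (m + 1)‖ * C m ≤ (2 * (3 / 2 * 2 ^ (m + 1))) * C m := by
            have := (hC m).le
            gcongr
        _ = C m * (3 * 2 ^ (m + 1)) := by ring
        _ ≤ C m * (2 ^ (m + 5) / 4) := by
            have := (hC m).le
            gcongr
            rw [show m + 5 = (m + 1) + 4 by ring, pow_add (2 : ℝ) (m + 1) 4]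
            have : (0 : ℝ) < 2 ^ (m + 1) := by positivity
            nlinarith
        _ ≤ C m * (2 ^ (2 * m + 7) / 4) := by
            have := (hC m).le
            have h5 : (2 : ℝ) ^ (m + 5) ≤ 2 ^ (2 * m + 7) :=
              pow_le_pow_right₀ (by norm_num) (by omega)
            gcongr
        _ = C m * 2 ^ (2 * m + 7) / 4 := by ring
  have hV : ∀ k, ‖V k‖ * C (k + 1) ≤ C k / 4 := by
    intro k
    have h1 : ‖V k‖ ≤ (1 / 3 : ℝ) ^ (2 * k + 9) := by
      simp only [hVdef]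
      rw [norm_smul, Real.norm_of_nonneg (pow_nonneg (inv_nonneg.mpr (hε k).le) _)]
      calc ((ε k)⁻¹) ^ (2 * k + 9) * ‖e k * (-(r k)) ^ (2 * k + 9)‖
          ≤ ((ε k)⁻¹) ^ (2 * k + 9) * (1 * (ε k / 3) ^ (2 * k + 9)) := by
            have hn : (0 : ℝ) ≤ ((ε k)⁻¹) ^ (2 * k + 9) := pow_nonneg (inv_nonneg.mpr (hε k).le) _
            refine mul_le_mul_of_nonneg_left ?_ hn
            refine (norm_mul_le _ _).trans (mul_le_mul (he k) ?_ (norm_nonneg _) zero_le_one)
            refine (norm_pow_le' _ (by omega)).trans ?_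
            gcongr
            rw [norm_neg]
            exact hr k
        _ = (1 / 3 : ℝ) ^ (2 * k + 9) := by
            rw [one_mul, ← mul_pow]
            congr 1
            have := (hε k).ne'
            field_simp
    have h2 : C (k + 1) = C k * 2 ^ (2 * k + 7) := by
      simp only [hCdef]
      rw [← pow_add]
      congr 1
      ring
    rw [h2]
    calc ‖V k‖ * (C k * 2 ^ (2 * k + 7)) ≤ (1 / 3 : ℝ) ^ (2 * k + 9) * (C k * 2 ^ (2 * k + 7)) := by
          have := (hC k).le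
          gcongr
      _ ≤ (1 / 2 : ℝ) ^ (2 * k + 9) * (C k * 2 ^ (2 * k + 7)) := by
          have := (hC k).le
          gcongr
          norm_num
      _ = C k / 4 := by
          rw [show 2 * k + 9 = (2 * k + 7) + 2 by ring, pow_add (1 / 2 : ℝ) (2 * k + 7) 2]
          have : (1 / 2 : ℝ) ^ (2 * k + 7) * 2 ^ (2 * k + 7) = 1 := by
            rw [← mul_pow]; norm_num
          linear_combination (C k / 4) * this
  have hhC : ∀ k, ‖h k‖ ≤ C k := by
    intro k
    refine (hhn k).trans ?_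
    simp only [hCdef]
    calc (3 / 2 : ℝ) * 2 ^ k ≤ 2 * 2 ^ k := by
          have : (0 : ℝ) < 2 ^ k := by positivity
          nlinarith
      _ = 2 ^ (k + 1) := by ring
      _ ≤ 2 ^ ((k + 3) ^ 2) := by
          apply pow_le_pow_right₀ (by norm_num)
          nlinarith
  -- the basic relation
  have hrel : ∀ k, d k ^ (2 * k + 10) = Gp d k * h k + U k * d (k - 1) ^ (2 * (k - 1) + 10)
      + V k * d (k + 1) ^ (2 * (k + 1) + 10) := by
    intro k
    have hV2 : V k * d (k + 1) ^ (2 * (k + 1) + 10)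
        = ((ε k)⁻¹) ^ (2 * k + 9) • (d k * (-(r k)) ^ (2 * k + 9)) := by
      simp only [hVdef]
      rw [smul_mul_assoc]
      congr 1
      conv_rhs => rw [hde k]
      ring
    have hg : gtail d k = ε k • d k + r k := gtail_step d hd k
    cases k with
    | zero =>
      have hG : Gp d 0 = gtail d 0 := by simp [Gp]
      rw [hV2, hG, hg, hhid 0]
      simp only [hUdef]
      ring
    | succ m =>
      have hG : Gp d (m + 1) = gtail d (m + 1) + d m ^ (2 * m + 10) * Q m := by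
        rw [← hQ m]; ring
      rw [hV2, hG, add_mul, hg, hhid (m + 1)]
      simp only [hUdef, Nat.add_sub_cancel]
      ring
  -- solve the two tridiagonal systems
  obtain ⟨α, hαn, hα⟩ := tridiag_exists (fun k => if Even k then h k else 0) U V C hC
    (fun k => by
      by_cases hk : Even k
      · simpa [hk] using hhC k
      · simpa [hk] using (hC k).le) hU hV
  obtain ⟨β, hβn, hβ⟩ := tridiag_exists (fun k => if Even k then 0 else h k) U V C hC
    (fun k => by
      by_cases hk : Even k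
      · simpa [hk] using (hC k).le
      · simpa [hk] using hhC k) hU hV
  refine ⟨α, β, hαn, hβn, ?_⟩
  have hzero := tridiag_unique U V
    (fun k => d k ^ (2 * k + 10) - gtail d 0 * α k - gtail d 1 * β k) C hC
    (1 + ‖gtail d 0‖ * 2 + ‖gtail d 1‖ * 2) hU hV ?_ ?_
  · intro k
    have := hzero k
    linear_combination this
  · intro k
    have h1 : ‖d k ^ (2 * k + 10)‖ ≤ C k := by
      refine (norm_pow_le' _ (by omega)).trans ((pow_le_one₀ (norm_nonneg _) (hd _)).trans ?_)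
      simp only [hCdef]
      exact one_le_pow₀ (by norm_num)
    calc ‖d k ^ (2 * k + 10) - gtail d 0 * α k - gtail d 1 * β k‖
        ≤ ‖d k ^ (2 * k + 10) - gtail d 0 * α k‖ + ‖gtail d 1 * β k‖ := norm_sub_le _ _
      _ ≤ ‖d k ^ (2 * k + 10)‖ + ‖gtail d 0 * α k‖ + ‖gtail d 1 * β k‖ := by
          gcongr; exact norm_sub_le _ _
      _ ≤ C k + ‖gtail d 0‖ * (2 * C k) + ‖gtail d 1‖ * (2 * C k) := by
          gcongr
          · exact (norm_mul_le _ _).trans (by gcongr; exact hαn k)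
          · exact (norm_mul_le _ _).trans (by gcongr; exact hβn k)
      _ = _ := by ring
  · intro k
    have hGk : Gp d k * h k = gtail d 0 * (if Even k then h k else 0)
        + gtail d 1 * (if Even k then 0 else h k) := by
      unfold Gp
      by_cases hk : Even k <;> simp [hk]
    have a1 := hrel k
    have a2 := hα k
    have a3 := hβ k
    rw [a1, hGk]
    nth_rewrite 1 [a2]
    nth_rewrite 1 [a3]
    ring

end abstract

/-! ### The Banach algebra `ℓ¹(S, w)` in rescaled coordinates -/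


section lift

variable {S : Type*} [DecidableEq S]

/-- `ℓ¹(S)` as a Banach space -/
abbrev V1 (S : Type*) : Type _ := lp (fun _ : S => ℂ) 1

/-- basis vectors -/
noncomputable def bv (s : S) : V1 S := lp.single 1 s (1 : ℂ)

omit [DecidableEq S] in
theorem V1_norm (f : V1 S) : ‖f‖ = ∑' s, ‖f s‖ := by
  rw [lp.norm_eq_tsum_rpow (by simp) f]
  simp

omit [DecidableEq S] in
theorem V1_summable (f : V1 S) : Summable (fun s => ‖f s‖) := by
  have := lp.memℓp f
  rw [memℓp_gen_iff (by simp)] at this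
  simpa using this

theorem bv_norm (s : S) : ‖bv s‖ = 1 := by
  unfold bv
  rw [lp.norm_single (by simp)]
  simp

theorem bv_apply (s t : S) : (bv s : V1 S) t = if t = s then 1 else 0 := by
  unfold bv
  by_cases h : t = s
  · subst h; simp
  · rw [if_neg h, lp.single_apply_ne _ _ _ h]

theorem V1_hasSum (f : V1 S) : HasSum (fun s => f s • bv s) f := by
  have := lp.hasSum_single (p := 1) (by simp) f
  convert this using 2 with s
  unfold bv
  rw [← lp.single_smul]
  simp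

variable {E : Type*} [NormedAddCommGroup E] [NormedSpace ℂ E] [CompleteSpace E]

omit [DecidableEq S] in
theorem lift_summable (v : S → E) (C : ℝ) (hv : ∀ s, ‖v s‖ ≤ C) (f : V1 S) :
    Summable (fun s => f s • v s) := by
  apply Summable.of_norm_bounded (g := fun s => ‖f s‖ * C) ((V1_summable f).mul_right C)
  intro s
  rw [norm_smul]
  gcongr
  exact hv s

/-- the bounded linear map on `ℓ¹(S)` with prescribed values on the basis -/
noncomputable def lift (v : S → E) (C : ℝ) (hv : ∀ s, ‖v s‖ ≤ C) : V1 S →L[ℂ] E :=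
  LinearMap.mkContinuous
    { toFun := fun f => ∑' s, f s • v s
      map_add' := fun f g => by
        simp only [lp.coeFn_add, Pi.add_apply, add_smul]
        exact (lift_summable v C hv f).tsum_add (lift_summable v C hv g)
      map_smul' := fun c f => by
        simp only [lp.coeFn_smul, Pi.smul_apply, smul_eq_mul, mul_smul, RingHom.id_apply]
        exact (lift_summable v C hv f).tsum_const_smul c }
    C
    (fun f => by
      simp only [LinearMap.coe_mk, AddHom.coe_mk]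
      have h1 : ∀ s, ‖f s • v s‖ ≤ ‖f s‖ * C := fun s => by
        rw [norm_smul]; gcongr; exact hv s
      have h2 := tsum_of_norm_bounded ((V1_summable f).mul_right C).hasSum h1
      rw [tsum_mul_right] at h2
      rw [V1_norm]
      linarith [mul_comm C (∑' s, ‖f s‖)])

omit [DecidableEq S] in
theorem lift_apply (v : S → E) (C : ℝ) (hv : ∀ s, ‖v s‖ ≤ C) (f : V1 S) :
    lift v C hv f = ∑' s, f s • v s := rfl

theorem lift_bv (v : S → E) (C : ℝ) (hv : ∀ s, ‖v s‖ ≤ C) (s : S) :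
    lift v C hv (bv s) = v s := by
  rw [lift_apply, tsum_eq_single s]
  · simp [bv_apply]
  · intro t ht
    simp [bv_apply, ht]

omit [DecidableEq S] in
theorem lift_norm (v : S → E) (C : ℝ) (hC : 0 ≤ C) (hv : ∀ s, ‖v s‖ ≤ C) :
    ‖lift v C hv‖ ≤ C :=
  LinearMap.mkContinuous_norm_le _ hC _

omit [CompleteSpace E] in
theorem V1_ext {L L' : V1 S →L[ℂ] E} (h : ∀ s, L (bv s) = L' (bv s)) : L = L' := by
  ext f
  have h1 := (V1_hasSum f).mapL L
  have h2 := (V1_hasSum f).mapL L'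
  simp only [map_smul, h] at h1 h2
  exact h1.unique h2

end lift

/-- A (submultiplicative) weight. -/
structure Wt (S : Type*) [AddCommMonoid S] where
  w : S → ℝ
  pos : ∀ s, 0 < w s
  zero : w 0 = 1
  submul : ∀ s t, w (s + t) ≤ w s * w t

namespace Wt

variable {S : Type*} [AddCommMonoid S] [DecidableEq S] (W : Wt S)

/-- the cocycle -/
noncomputable def κ (s t : S) : ℝ := W.w (s + t) / (W.w s * W.w t)

omit [DecidableEq S] in
theorem κ_nonneg (s t : S) : 0 ≤ W.κ s t :=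
  div_nonneg (W.pos _).le (mul_nonneg (W.pos _).le (W.pos _).le)

omit [DecidableEq S] in
theorem κ_le (s t : S) : W.κ s t ≤ 1 := by
  unfold κ
  rw [div_le_one (mul_pos (W.pos _) (W.pos _))]
  exact W.submul s t

omit [DecidableEq S] in
theorem κ_comm (s t : S) : W.κ s t = W.κ t s := by
  unfold κ
  rw [add_comm s t, mul_comm (W.w s)]

omit [DecidableEq S] in
theorem κ_assoc (s t u : S) : W.κ s t * W.κ (s + t) u = W.κ t u * W.κ s (t + u) := by
  unfold κ
  have h1 := (W.pos s).ne'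
  have h2 := (W.pos t).ne'
  have h3 := (W.pos u).ne'
  have h4 := (W.pos (s + t)).ne'
  have h5 := (W.pos (t + u)).ne'
  rw [add_assoc]
  field_simp

omit [DecidableEq S] in
theorem κ_zero_left (s : S) : W.κ 0 s = 1 := by
  unfold κ
  rw [zero_add, W.zero, one_mul, div_self (W.pos s).ne']

theorem aux_norm (s t : S) : ‖((W.κ s t : ℝ) : ℂ) • bv (s + t)‖ ≤ 1 := by
  rw [norm_smul, bv_norm, mul_one, Complex.norm_real, Real.norm_of_nonneg (W.κ_nonneg s t)]
  exact W.κ_le s t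

/-- multiplication of `ℓ¹(S,w)` in rescaled coordinates -/
noncomputable def mulL : V1 S →L[ℂ] V1 S →L[ℂ] V1 S :=
  lift (fun s => lift (fun t => ((W.κ s t : ℝ) : ℂ) • bv (s + t)) 1 (W.aux_norm s)) 1
    (fun _ => lift_norm _ 1 zero_le_one _)

theorem mulL_bv (s t : S) : W.mulL (bv s) (bv t) = ((W.κ s t : ℝ) : ℂ) • bv (s + t) := by
  unfold mulL
  rw [lift_bv, lift_bv]

theorem mulL_norm_le (f g : V1 S) : ‖W.mulL f g‖ ≤ ‖f‖ * ‖g‖ := by
  have h1 : ‖W.mulL‖ ≤ 1 := lift_norm _ 1 zero_le_one _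
  calc ‖W.mulL f g‖ ≤ ‖W.mulL f‖ * ‖g‖ := (W.mulL f).le_opNorm g
    _ ≤ (‖W.mulL‖ * ‖f‖) * ‖g‖ := by gcongr; exact W.mulL.le_opNorm f
    _ ≤ (1 * ‖f‖) * ‖g‖ := by gcongr
    _ = ‖f‖ * ‖g‖ := by rw [one_mul]

theorem mulL_comm (f g : V1 S) : W.mulL f g = W.mulL g f := by
  have : W.mulL = W.mulL.flip := by
    apply V1_ext
    intro s
    apply V1_ext
    intro t
    rw [ContinuousLinearMap.flip_apply, mulL_bv, mulL_bv, add_comm, W.κ_comm]
  conv_lhs => rw [this]
  rfl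

theorem mulL_one (f : V1 S) : W.mulL (bv 0) f = f := by
  have : W.mulL (bv 0) = ContinuousLinearMap.id ℂ (V1 S) := by
    apply V1_ext
    intro s
    rw [mulL_bv, W.κ_zero_left, zero_add]
    simp
  rw [this]
  rfl

theorem mulL_assoc (f g h : V1 S) : W.mulL (W.mulL f g) h = W.mulL f (W.mulL g h) := by
  have s1 : ∀ s t u : S, W.mulL (W.mulL (bv s) (bv t)) (bv u)
      = W.mulL (bv s) (W.mulL (bv t) (bv u)) := by
    intro s t u
    rw [mulL_bv, mulL_bv, map_smul, map_smul, ContinuousLinearMap.smul_apply, mulL_bv,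
      mulL_bv, smul_smul, smul_smul, add_assoc, ← Complex.ofReal_mul, ← Complex.ofReal_mul,
      W.κ_assoc]
  have s2 : ∀ (s t : S) (h : V1 S), W.mulL (W.mulL (bv s) (bv t)) h
      = W.mulL (bv s) (W.mulL (bv t) h) := by
    intro s t h
    have : W.mulL (W.mulL (bv s) (bv t)) = (W.mulL (bv s)).comp (W.mulL (bv t)) :=
      V1_ext (fun u => s1 s t u)
    rw [this]; rfl
  have s3 : ∀ (s : S) (g h : V1 S), W.mulL (W.mulL (bv s) g) h
      = W.mulL (bv s) (W.mulL g h) := by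
    intro s g h
    have : (W.mulL.flip h).comp (W.mulL (bv s)) = (W.mulL (bv s)).comp (W.mulL.flip h) :=
      V1_ext (fun t => s2 s t h)
    exact congrArg (fun L => L g) this
  have : (W.mulL.flip h).comp (W.mulL.flip g) = W.mulL.flip (W.mulL g h) :=
    V1_ext (fun s => s3 s g h)
  exact congrArg (fun L => L f) this

theorem mulL_add_left (f g h : V1 S) : W.mulL (f + g) h = W.mulL f h + W.mulL g h := by
  rw [map_add]; rfl

theorem mulL_zero_left (h : V1 S) : W.mulL 0 h = 0 := by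
  rw [map_zero]; rfl

theorem mulL_smul_left (c : ℂ) (f h : V1 S) : W.mulL (c • f) h = c • W.mulL f h := by
  rw [map_smul]; rfl

theorem mulL_one_right (f : V1 S) : W.mulL f (bv 0) = f := by
  rw [mulL_comm, mulL_one]

theorem hasSum_mulL (x y : V1 S) : HasSum (fun p : S × S =>
    (x p.1 * y p.2 * ((W.κ p.1 p.2 : ℝ) : ℂ)) • (bv (p.1 + p.2) : V1 S)) (W.mulL x y) := by
  have hx := V1_summable x
  have hy := V1_summable y
  have hxy : Summable (fun p : S × S => ‖x p.1‖ * ‖y p.2‖) :=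
    hx.mul_of_nonneg hy (fun _ => norm_nonneg _) (fun _ => norm_nonneg _)
  have hS : Summable (fun p : S × S =>
    (x p.1 * y p.2 * ((W.κ p.1 p.2 : ℝ) : ℂ)) • (bv (p.1 + p.2) : V1 S)) := by
    apply Summable.of_norm_bounded hxy
    intro p
    rw [norm_smul, bv_norm, mul_one, norm_mul, norm_mul, Complex.norm_real,
      Real.norm_of_nonneg (W.κ_nonneg _ _)]
    exact mul_le_of_le_one_right (by positivity) (W.κ_le _ _)
  have hin : ∀ s, HasSum (fun u : S =>
      (x s * y u * ((W.κ s u : ℝ) : ℂ)) • (bv (s + u) : V1 S))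
      (x s • W.mulL (bv s) y) := by
    intro s
    have h1 := ((V1_hasSum y).mapL (W.mulL (bv s))).const_smul (x s)
    have h2 : (fun u : S => (x s * y u * ((W.κ s u : ℝ) : ℂ)) • (bv (s + u) : V1 S))
        = fun u => x s • W.mulL (bv s) (y u • bv u) := by
      funext u
      rw [map_smul, mulL_bv, smul_smul, smul_smul]
    rw [h2]
    exact h1
  have hout : HasSum (fun s : S => x s • W.mulL (bv s) y) (W.mulL x y) := by
    have h1 := (V1_hasSum x).mapL (W.mulL.flip y)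
    have h2 : (fun s : S => x s • W.mulL (bv s) y) = fun s => W.mulL.flip y (x s • bv s) := by
      funext s
      rw [map_smul]
      rfl
    rw [h2]
    exact h1
  have h3 := hS.hasSum.prod_fiberwise hin
  have h4 := h3.unique hout
  rw [← h4]
  exact hS.hasSum

end Wt

/-- The weighted algebra `ℓ¹(S,w)` in rescaled coordinates. -/
def Alg {S : Type*} [AddCommMonoid S] (_W : Wt S) : Type _ := V1 S

namespace Alg

variable {S : Type*} [AddCommMonoid S] [DecidableEq S] (W : Wt S)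

noncomputable instance : NormedAddCommGroup (Alg W) := inferInstanceAs (NormedAddCommGroup (V1 S))
noncomputable instance : NormedSpace ℂ (Alg W) := inferInstanceAs (NormedSpace ℂ (V1 S))
instance : CompleteSpace (Alg W) := inferInstanceAs (CompleteSpace (V1 S))

noncomputable instance : NormedCommRing (Alg W) where
  __ := (inferInstance : NormedAddCommGroup (Alg W))
  mul := fun f g => W.mulL f g
  left_distrib := fun f g h => map_add (W.mulL f) g h
  right_distrib := fun f g h => W.mulL_add_left f g h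
  zero_mul := fun f => W.mulL_zero_left f
  mul_zero := fun f => map_zero (W.mulL f)
  mul_assoc := W.mulL_assoc
  one := bv 0
  one_mul := W.mulL_one
  mul_one := W.mulL_one_right
  mul_comm := W.mulL_comm
  norm_mul_le := W.mulL_norm_le

theorem mul_def (f g : Alg W) : f * g = W.mulL f g := rfl

instance : NormOneClass (Alg W) := ⟨bv_norm (0 : S)⟩

theorem smul_mul (c : ℂ) (f g : Alg W) : (c • f) * g = c • (f * g) := W.mulL_smul_left c f g

noncomputable instance : Algebra ℂ (Alg W) :=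
  Algebra.ofModule (fun c f g => smul_mul W c f g)
    (fun c f g => by rw [mul_comm f (c • g), smul_mul, mul_comm g f])

noncomputable instance : NormedAlgebra ℂ (Alg W) where
  norm_smul_le := fun c x => norm_smul_le c x

noncomputable instance : NormedAlgebra ℝ (Alg W) := NormedAlgebra.complexToReal

end Alg

/-! ### The decomposition -/


namespace Alg

variable (W : Wt ℚ≥0)

/-- evaluation at a coordinate -/
noncomputable def ev (s : ℚ≥0) : Alg W →L[ℂ] ℂ := lp.evalCLM ℂ (fun _ : ℚ≥0 => ℂ) 1 s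

/-- the point mass at `p` -/
noncomputable def dl (p : ℚ≥0) : Alg W := ((W.w p : ℝ) : ℂ) • (bv p : V1 ℚ≥0)

theorem ev_dl (s p : ℚ≥0) : ev W s (dl W p) = if s = p then ((W.w p : ℝ) : ℂ) else 0 := by
  change (((W.w p : ℝ) : ℂ) • (bv p : V1 ℚ≥0)) s = _
  rw [lp.coeFn_smul, Pi.smul_apply, bv_apply]
  split_ifs <;> simp

theorem dl_norm (p : ℚ≥0) : ‖dl W p‖ = W.w p := by
  change ‖((W.w p : ℝ) : ℂ) • (bv p : V1 ℚ≥0)‖ = _
  rw [norm_smul, bv_norm, mul_one, Complex.norm_real, Real.norm_of_nonneg (W.pos p).le]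

theorem dl_mul (p q : ℚ≥0) : dl W p * dl W q = dl W (p + q) := by
  change W.mulL (((W.w p : ℝ) : ℂ) • (bv p : V1 ℚ≥0)) (((W.w q : ℝ) : ℂ) • (bv q : V1 ℚ≥0))
    = ((W.w (p + q) : ℝ) : ℂ) • (bv (p + q) : V1 ℚ≥0)
  rw [Wt.mulL_smul_left, map_smul, Wt.mulL_bv, smul_smul, smul_smul]
  congr 1
  rw [← Complex.ofReal_mul, ← Complex.ofReal_mul]
  congr 1
  unfold Wt.κ
  have h1 := (W.pos p).ne'
  have h2 := (W.pos q).ne'
  field_simp

theorem dl_zero : dl W 0 = 1 := by
  change ((W.w 0 : ℝ) : ℂ) • (bv 0 : V1 ℚ≥0) = bv 0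
  rw [W.zero]; simp

theorem dl_pow (p : ℚ≥0) (n : ℕ) : dl W p ^ n = dl W (n * p) := by
  induction n with
  | zero => rw [pow_zero, Nat.cast_zero, zero_mul, dl_zero]
  | succ n ih => rw [pow_succ, ih, dl_mul, Nat.cast_succ, add_mul, one_mul]

theorem ev_zero_mul (x y : Alg W) (hx : ev W 0 x = 0) : ev W 0 (x * y) = 0 := by
  -- the augmentation-like map: ev 0 (x*y) = ev 0 x * ev 0 y
  have key : ∀ s t : ℚ≥0, ev W 0 (W.mulL (bv s) (bv t)) = ev W 0 (bv s : V1 ℚ≥0) * ev W 0 (bv t : V1 ℚ≥0) := by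
    intro s t
    rw [Wt.mulL_bv]
    change (((W.κ s t : ℝ) : ℂ) • (bv (s + t) : V1 ℚ≥0)) 0 = (bv s : V1 ℚ≥0) 0 * (bv t : V1 ℚ≥0) 0
    rw [lp.coeFn_smul, Pi.smul_apply, bv_apply, bv_apply, bv_apply]
    by_cases hs : (0 : ℚ≥0) = s
    · by_cases ht : (0 : ℚ≥0) = t
      · subst hs; subst ht; simp [W.κ_zero_left]
      · subst hs
        have : ¬ ((0 : ℚ≥0) = 0 + t) := by rwa [zero_add]
        simp [ht]
    · have : ¬ ((0 : ℚ≥0) = s + t) := by
        intro h
        exact hs (by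
          have := h.symm
          rw [add_eq_zero] at this
          exact this.1.symm)
      simp [this, hs]
  have s2 : ∀ (s : ℚ≥0) (y : V1 ℚ≥0), ev W 0 (W.mulL (bv s) y)
      = ev W 0 (bv s : V1 ℚ≥0) * ev W 0 y := by
    intro s y
    have : ((lp.evalCLM ℂ (fun _ : ℚ≥0 => ℂ) 1 0).comp (W.mulL (bv s)) : V1 ℚ≥0 →L[ℂ] ℂ)
        = (ev W 0 (bv s : V1 ℚ≥0)) • (lp.evalCLM ℂ (fun _ : ℚ≥0 => ℂ) 1 0) :=
      V1_ext (fun t => key s t)
    exact congrArg (fun L => L y) this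
  have s3 : ∀ (x y : V1 ℚ≥0), ev W 0 (W.mulL x y)
      = ev W 0 x * ev W 0 y := by
    intro x y
    have : ((lp.evalCLM ℂ (fun _ : ℚ≥0 => ℂ) 1 0).comp (W.mulL.flip y) : V1 ℚ≥0 →L[ℂ] ℂ)
        = (ev W 0 y) • (lp.evalCLM ℂ (fun _ : ℚ≥0 => ℂ) 1 0) :=
      V1_ext (fun t => (s2 t y).trans (mul_comm _ _))
    exact (congrArg (fun L => L x) this).trans (mul_comm _ _)
  exact (s3 x y).trans (by rw [hx, zero_mul])

theorem fin_eta (g : ℚ≥0 → ℚ≥0) (hg : ∀ t, 0 < t → 0 < g t) (F : Finset ℚ≥0) :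
    ∃ η : ℚ≥0, 0 < η ∧ ∀ t ∈ F, 0 < t → η ≤ g t ∧ η ≤ t := by
  classical
  induction F using Finset.induction_on with
  | empty => exact ⟨1, one_pos, by simp⟩
  | insert s F' hs' ih =>
    obtain ⟨η, hη0, hη⟩ := ih
    by_cases h0 : 0 < s
    · refine ⟨min η (min (g s) s), lt_min hη0 (lt_min (hg s h0) h0), ?_⟩
      intro t ht ht0
      rw [Finset.mem_insert] at ht
      rcases ht with rfl | ht
      · exact ⟨(min_le_right _ _).trans (min_le_left _ _), (min_le_right _ _).trans (min_le_right _ _)⟩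
      · exact ⟨(min_le_left _ _).trans (hη t ht ht0).1, (min_le_left _ _).trans (hη t ht ht0).2⟩
    · refine ⟨η, hη0, ?_⟩
      intro t ht ht0
      rw [Finset.mem_insert] at ht
      rcases ht with rfl | ht
      · exact absurd ht0 h0
      · exact hη t ht ht0

/-- tail estimate -/
theorem tail (hcont : ∀ t : ℚ≥0, 0 < t → ∃ η : ℚ≥0, 0 < η ∧ ∀ x : ℚ≥0, x < η → x < t →
      W.w (t - x) ≤ 2 * W.w t) (a : V1 ℚ≥0) (ha : a 0 = 0) (δ : ℝ) (hδ : 0 < δ) :
    ∃ η : ℚ≥0, 0 < η ∧ ∀ x : ℚ≥0, x < η →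
      ∑' t, (if x < t ∧ W.w (t - x) ≤ 2 * W.w t then 0 else ‖a t‖) ≤ δ := by
  classical
  have hs := V1_summable a
  obtain ⟨F, hF⟩ := hs.tsum_vanishing (Iio_mem_nhds hδ)
  have hF' := hF (↑F)ᶜ disjoint_compl_left
  -- choose η for the finite set F
  choose! g hg0 hg using hcont
  obtain ⟨η, hη0, hη⟩ := fin_eta g hg0 F
  refine ⟨η, hη0, fun x hx => ?_⟩
  have hle : ∀ t, (if x < t ∧ W.w (t - x) ≤ 2 * W.w t then 0 else ‖a t‖)
      ≤ Set.indicator ((↑F : Set ℚ≥0))ᶜ (fun t => ‖a t‖) t := by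
    intro t
    by_cases htF : t ∈ F
    · have h1 : Set.indicator ((↑F : Set ℚ≥0))ᶜ (fun t => ‖a t‖) t = 0 := by
        apply Set.indicator_of_notMem
        simpa using htF
      rw [h1]
      rcases eq_or_ne t 0 with rfl | ht0
      · split_ifs
        · exact le_rfl
        · rw [ha, norm_zero]
      · have ht0' : 0 < t := pos_iff_ne_zero.mpr ht0
        obtain ⟨h2, h3⟩ := hη t htF ht0'
        have h4 : x < t := lt_of_lt_of_le hx h3
        rw [if_pos ⟨h4, hg t ht0' x (lt_of_lt_of_le hx h2) h4⟩]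
    · have h1 : Set.indicator ((↑F : Set ℚ≥0))ᶜ (fun t => ‖a t‖) t = ‖a t‖ := by
        apply Set.indicator_of_mem
        simpa using htF
      rw [h1]
      split_ifs
      · exact norm_nonneg _
      · exact le_rfl
  have hind : Summable (Set.indicator ((↑F : Set ℚ≥0))ᶜ (fun t => ‖a t‖)) := hs.indicator _
  have hsum : Summable (fun t => (if x < t ∧ W.w (t - x) ≤ 2 * W.w t then 0 else ‖a t‖)) := by
    apply Summable.of_nonneg_of_le _ hle hind
    intro t
    split_ifs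
    · exact le_rfl
    · exact norm_nonneg _
  calc ∑' t, (if x < t ∧ W.w (t - x) ≤ 2 * W.w t then 0 else ‖a t‖)
      ≤ ∑' t, Set.indicator ((↑F : Set ℚ≥0))ᶜ (fun t => ‖a t‖) t := hsum.tsum_le_tsum hle hind
    _ = ∑' t : ↑((↑F : Set ℚ≥0))ᶜ, ‖a t‖ :=
        (tsum_subtype ((↑F : Set ℚ≥0))ᶜ (fun t : ℚ≥0 => ‖a t‖)).symm
    _ ≤ δ := le_of_lt hF'

theorem ext_ev {x y : Alg W} (h : ∀ s, ev W s x = ev W s y) : x = y :=
  Subtype.ext (funext h)

theorem hasSum_dl (f : ℚ≥0 → ℂ) (hf : Summable (fun t => ‖f t‖ * W.w t)) :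
    Summable (fun t => f t • dl W t) := by
  apply Summable.of_norm
  refine hf.congr (fun t => ?_)
  rw [norm_smul, dl_norm]

theorem aux_lt (K q : ℚ≥0) (hq : 0 < q) : K * (q / (K + 1)) < q := by
  rw [mul_div_assoc', div_lt_iff₀ (by positivity), mul_add, mul_one, mul_comm K q]
  exact lt_add_of_pos_right _ hq

theorem alg_main (hle : ∀ s, W.w s ≤ 1)
    (hcont : ∀ t : ℚ≥0, 0 < t → ∃ η : ℚ≥0, 0 < η ∧ ∀ x : ℚ≥0, x < η → x < t →
      W.w (t - x) ≤ 2 * W.w t) (a : Alg W) (ha : ev W 0 a = 0) :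
    ∃ b₁ c₁ b₂ c₂ : Alg W, ev W 0 b₁ = 0 ∧ ev W 0 c₁ = 0 ∧ ev W 0 b₂ = 0 ∧ ev W 0 c₂ = 0 ∧
      a = b₁ * c₁ + b₂ * c₂ := by
  classical
  set C : ℕ → ℝ := fun k => (2 : ℝ) ^ ((k + 3) ^ 2) with hCdef
  have hC : ∀ k, 0 < C k := fun k => by simp only [hCdef]; positivity
  set an : ℚ≥0 → ℝ := fun t => ‖ev W t a‖ with hanDef
  have hans : Summable an := V1_summable a
  choose η hη0 hηt using fun k : ℕ => tail W hcont a ha ((1 / 2 : ℝ) ^ k / C (k + 1))
    (div_pos (by positivity) (hC _))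
  let p : ℕ → ℚ≥0 := fun k => Nat.rec (η 0 / 11) (fun k q => min q (η (k + 1)) / (2 * (k + 1) + 11)) k
  have hp0 : p 0 = η 0 / 11 := rfl
  have hps : ∀ k, p (k + 1) = min (p k) (η (k + 1)) / (2 * (k + 1) + 11) := fun k => rfl
  have hpos : ∀ k, 0 < p k := by
    intro k
    induction k with
    | zero => rw [hp0]; exact div_pos (hη0 0) (by norm_num)
    | succ k ih =>
      rw [hps]
      exact div_pos (lt_min ih (hη0 _)) (by positivity)
  have hx1 : ∀ k, ((2 * k + 10 : ℕ) : ℚ≥0) * p k < η k := by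
    intro k
    cases k with
    | zero =>
      rw [hp0]
      have := aux_lt 10 (η 0) (hη0 0)
      norm_num at this ⊢
      exact this
    | succ k =>
      rw [hps]
      have h1 : 0 < min (p k) (η (k + 1)) := lt_min (hpos k) (hη0 _)
      have h2 := aux_lt ((2 * (k + 1) + 10 : ℕ) : ℚ≥0) _ h1
      have h3 : ((2 * (k + 1) + 10 : ℕ) : ℚ≥0) + 1 = 2 * (k + 1) + 11 := by push_cast; ring
      rw [h3] at h2
      exact h2.trans_le (min_le_right _ _)
  have hx2 : ∀ k, ((2 * (k + 1) + 10 : ℕ) : ℚ≥0) * p (k + 1) < p k := by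
    intro k
    rw [hps]
    have h1 : 0 < min (p k) (η (k + 1)) := lt_min (hpos k) (hη0 _)
    have h2 := aux_lt ((2 * (k + 1) + 10 : ℕ) : ℚ≥0) _ h1
    have h3 : ((2 * (k + 1) + 10 : ℕ) : ℚ≥0) + 1 = 2 * (k + 1) + 11 := by push_cast; ring
    rw [h3] at h2
    exact h2.trans_le (min_le_left _ _)
  set x : ℕ → ℚ≥0 := fun k => ((2 * k + 10 : ℕ) : ℚ≥0) * p k with hxdef
  let Lvl : ℕ → ℚ≥0 → Prop := fun k t => x k < t ∧ W.w (t - x k) ≤ 2 * W.w t
  -- coefficient families
  let c : ℕ → ℚ≥0 → ℂ := fun k t => if (Lvl k t ∧ ∀ j < k, ¬ Lvl j t) then ev W t a else 0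
  have hcle : ∀ k t, ‖c k t‖ ≤ an t := by
    intro k t
    simp only [c]
    split_ifs
    · exact le_rfl
    · rw [norm_zero]; exact norm_nonneg _
  have hcs : ∀ k, Summable (fun t => ‖c k t‖) := fun k =>
    Summable.of_nonneg_of_le (fun t => norm_nonneg _) (hcle k) hans
  have hcl : ∀ k t, c k t ≠ 0 → Lvl k t := by
    intro k t h
    simp only [c] at h
    by_contra h'
    rw [if_neg (fun h'' => h' h''.1)] at h
    exact h rfl
  have hn0 : ∑' t, ‖c 0 t‖ ≤ ∑' t, an t := (hcs 0).tsum_le_tsum (hcle 0) hans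
  have hns : ∀ k, ∑' t, ‖c (k + 1) t‖ ≤ (1 / 2 : ℝ) ^ k / C (k + 1) := by
    intro k
    refine le_trans ?_ (hηt k (x k) (hx1 k))
    have hle' : ∀ t, ‖c (k + 1) t‖
        ≤ (if x k < t ∧ W.w (t - x k) ≤ 2 * W.w t then 0 else an t) := by
      intro t
      by_cases hL : x k < t ∧ W.w (t - x k) ≤ 2 * W.w t
      · rw [if_pos hL]
        simp only [c]
        rw [if_neg, norm_zero]
        intro h
        exact h.2 k (Nat.lt_succ_self k) hL
      · rw [if_neg hL]
        exact hcle (k + 1) t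
    refine (hcs (k + 1)).tsum_le_tsum hle' ?_
    apply Summable.of_nonneg_of_le _ _ hans
    · intro t
      split_ifs
      · exact le_rfl
      · exact norm_nonneg _
    · intro t
      split_ifs
      · exact norm_nonneg _
      · exact le_rfl
  -- the elements b_k
  let v : ℕ → ℚ≥0 → Alg W := fun k t => (c k t / ((W.w t : ℝ) : ℂ)) • dl W (t - x k)
  have hv : ∀ k t, ‖v k t‖ ≤ 2 * ‖c k t‖ := by
    intro k t
    simp only [v]
    by_cases h0 : c k t = 0
    · rw [h0]; simp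
    · obtain ⟨h1, h2⟩ := hcl k t h0
      rw [norm_smul, dl_norm, norm_div, Complex.norm_real, Real.norm_of_nonneg (W.pos t).le,
        div_mul_eq_mul_div, div_le_iff₀ (W.pos t)]
      calc ‖c k t‖ * W.w (t - x k) ≤ ‖c k t‖ * (2 * W.w t) := by gcongr
        _ = 2 * ‖c k t‖ * W.w t := by ring
  have hvs : ∀ k, Summable (v k) := fun k =>
    Summable.of_norm_bounded ((hcs k).mul_left 2) (hv k)
  let b : ℕ → Alg W := fun k => ∑' t, v k t
  have hbn : ∀ k, ‖b k‖ ≤ 2 * ∑' t, ‖c k t‖ := by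
    intro k
    have := tsum_of_norm_bounded ((hcs k).mul_left 2).hasSum (hv k)
    rwa [tsum_mul_left] at this
  have hb0 : ∀ k, ev W 0 (b k) = 0 := by
    intro k
    simp only [b]
    rw [ContinuousLinearMap.map_tsum _ (hvs k)]
    convert tsum_zero with t
    simp only [v, map_smul, ev_dl]
    by_cases h0 : c k t = 0
    · rw [h0]; simp
    · obtain ⟨h1, h2⟩ := hcl k t h0
      rw [if_neg]
      · simp
      · exact (tsub_pos_of_lt h1).ne
  -- dl (x k) * b k has coordinates c k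
  have hxb : ∀ k s, ev W s (dl W (x k) * b k) = c k s := by
    intro k s
    simp only [b]
    rw [← (hvs k).tsum_mul_left, ContinuousLinearMap.map_tsum _ ((hvs k).mul_left _)]
    rw [tsum_eq_single s]
    · simp only [v]
      by_cases h0 : c k s = 0
      · rw [h0]; simp
      · obtain ⟨h1, h2⟩ := hcl k s h0
        rw [mul_smul_comm, dl_mul, add_tsub_cancel_of_le h1.le, map_smul, ev_dl, if_pos rfl,
          smul_eq_mul, div_mul_cancel₀]
        exact_mod_cast (W.pos s).ne'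
    · intro t ht
      simp only [v]
      by_cases h0 : c k t = 0
      · rw [h0]; simp
      · obtain ⟨h1, h2⟩ := hcl k t h0
        rw [mul_smul_comm, dl_mul, add_tsub_cancel_of_le h1.le, map_smul, ev_dl, if_neg ht.symm,
          smul_zero]
  -- summability of C k * ‖b k‖
  have hCb : Summable (fun k => C k * ‖b k‖) := by
    rw [← summable_nat_add_iff 1]
    apply Summable.of_nonneg_of_le (g := fun k => C (k + 1) * ‖b (k + 1)‖)
      (f := fun k => 2 * (1 / 2 : ℝ) ^ k)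
    · intro k; exact mul_nonneg (hC _).le (norm_nonneg _)
    · intro k
      calc C (k + 1) * ‖b (k + 1)‖ ≤ C (k + 1) * (2 * ((1 / 2 : ℝ) ^ k / C (k + 1))) := by
            have := (hC (k + 1)).le
            gcongr
            exact (hbn (k + 1)).trans (by gcongr; exact hns k)
        _ = 2 * (1 / 2 : ℝ) ^ k := by
            have := (hC (k + 1)).ne'
            field_simp
    · exact (summable_geometric_of_lt_one (by norm_num) (by norm_num)).mul_left 2
  -- apply the abstract theorem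
  let d : ℕ → Alg W := fun k => dl W (p k)
  let e : ℕ → Alg W := fun k => dl W (p k - x (k + 1))
  have hd : ∀ k, ‖d k‖ ≤ 1 := fun k => by simp only [d]; rw [dl_norm]; exact hle _
  have he : ∀ k, ‖e k‖ ≤ 1 := fun k => by simp only [e]; rw [dl_norm]; exact hle _
  have hdpow : ∀ k, d k ^ (2 * k + 10) = dl W (x k) := fun k => by
    simp only [d, hxdef]; rw [dl_pow]
  have hde : ∀ k, d k = d (k + 1) ^ (2 * (k + 1) + 10) * e k := by
    intro k
    rw [hdpow (k + 1)]
    simp only [e]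
    rw [dl_mul, add_tsub_cancel_of_le (hx2 k).le]
  obtain ⟨α, β, hα, hβ, hαβ⟩ := abstract_main d e hd he hde
  have hαb : Summable (fun k => α k * b k) := by
    apply Summable.of_norm_bounded (g := fun k => 2 * (C k * ‖b k‖)) (hCb.mul_left 2)
    intro k
    calc ‖α k * b k‖ ≤ ‖α k‖ * ‖b k‖ := norm_mul_le _ _
      _ ≤ (2 * C k) * ‖b k‖ := by gcongr; exact hα k
      _ = 2 * (C k * ‖b k‖) := by ring
  have hβb : Summable (fun k => β k * b k) := by
    apply Summable.of_norm_bounded (g := fun k => 2 * (C k * ‖b k‖)) (hCb.mul_left 2)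
    intro k
    calc ‖β k * b k‖ ≤ ‖β k‖ * ‖b k‖ := norm_mul_le _ _
      _ ≤ (2 * C k) * ‖b k‖ := by gcongr; exact hβ k
      _ = 2 * (C k * ‖b k‖) := by ring
  have hG : ∀ k, ev W 0 (gtail d k) = 0 := by
    intro k
    unfold gtail
    rw [ContinuousLinearMap.map_tsum _ (gtail_summable d hd k)]
    convert tsum_zero with i
    have h1 : ev W 0 (d (k + 2 * i)) = 0 := by
      simp only [d]
      rw [ev_dl, if_neg (hpos _).ne]
    have h2 : ((1 / 2 : ℝ) ^ (k + 2 * i)) • d (k + 2 * i)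
        = (((1 / 2 : ℝ) ^ (k + 2 * i) : ℝ) : ℂ) • d (k + 2 * i) := rfl
    rw [h2, map_smul, h1, smul_zero]
  have hH : ∀ (γ : ℕ → Alg W), Summable (fun k => γ k * b k) → ev W 0 (∑' k, γ k * b k) = 0 := by
    intro γ hγ
    rw [ContinuousLinearMap.map_tsum _ hγ]
    convert tsum_zero with k
    rw [mul_comm]
    exact ev_zero_mul W _ _ (hb0 k)
  refine ⟨gtail d 0, ∑' k, α k * b k, gtail d 1, ∑' k, β k * b k, hG 0, hH α hαb, hG 1, hH β hβb, ?_⟩
  -- final identity
  have hsum : HasSum (fun k => dl W (x k) * b k)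
      (gtail d 0 * (∑' k, α k * b k) + gtail d 1 * (∑' k, β k * b k)) := by
    have h1 := (hαb.hasSum.mul_left (gtail d 0)).add (hβb.hasSum.mul_left (gtail d 1))
    have h2 : (fun k => dl W (x k) * b k)
        = fun k => gtail d 0 * (α k * b k) + gtail d 1 * (β k * b k) := by
      funext k
      rw [← hdpow k, hαβ k]
      ring
    rw [h2]
    exact h1
  apply ext_ev
  intro s
  have h1 := hsum.mapL (ev W s)
  simp only [hxb] at h1
  refine HasSum.unique ?_ h1
  -- pointwise sum of c k s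
  by_cases has : ev W s a = 0
  · have : ∀ k, c k s = 0 := by
      intro k
      simp only [c]
      rw [has]; simp
    simp only [this, has]
    exact hasSum_zero
  · have hex : ∃ k, Lvl k s := by
      by_contra hne
      push Not at hne
      have hbig : ∀ k : ℕ, ‖ev W s a‖ ≤ (1 / 2 : ℝ) ^ k / C (k + 1) := by
        intro k
        refine le_trans ?_ (hηt k (x k) (hx1 k))
        have hs' : Summable (fun t => (if x k < t ∧ W.w (t - x k) ≤ 2 * W.w t then 0
            else an t)) := by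
          apply Summable.of_nonneg_of_le _ _ hans
          · intro t
            split_ifs
            · exact le_rfl
            · exact norm_nonneg _
          · intro t
            split_ifs
            · exact norm_nonneg _
            · exact le_rfl
        have := hs'.le_tsum s (fun t _ => by
          split_ifs
          · exact le_rfl
          · exact norm_nonneg _)
        rw [if_neg (hne k)] at this
        exact this
      have hlim : Tendsto (fun k : ℕ => (1 / 2 : ℝ) ^ k) atTop (𝓝 0) :=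
        tendsto_pow_atTop_nhds_zero_of_lt_one (by norm_num) (by norm_num)
      have : ‖ev W s a‖ ≤ 0 := by
        refine ge_of_tendsto' hlim (fun k => (hbig k).trans ?_)
        apply div_le_self (by positivity)
        simp only [hCdef]
        exact one_le_pow₀ (by norm_num)
      exact has (norm_le_zero_iff.mp this)
    have hfind : ∀ k, c k s = if k = Nat.find hex then ev W s a else 0 := by
      intro k
      simp only [c]
      by_cases hk : k = Nat.find hex
      · rw [if_pos hk, if_pos]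
        refine ⟨hk ▸ Nat.find_spec hex, fun j hj => Nat.find_min hex (hk ▸ hj)⟩
      · rw [if_neg hk, if_neg]
        rintro ⟨h1, h2⟩
        rcases lt_trichotomy k (Nat.find hex) with h | h | h
        · exact Nat.find_min hex h h1
        · exact hk h
        · exact h2 _ h (Nat.find_spec hex)
    simp only [hfind]
    exact hasSum_ite_eq _ _

end Alg

/-! ### Back to functions -/


/-- inclusion of `ℚ⁺` in `ℚ≥0` -/
def toNN (t : QPos) : ℚ≥0 := ⟨t.1, t.2.le⟩

theorem toNN_pos (t : QPos) : 0 < toNN t := by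
  change (0 : ℚ) < t.1
  exact t.2

theorem toNN_inj : Function.Injective toNN := by
  intro s t h
  have : (toNN s : ℚ) = (toNN t : ℚ) := by rw [h]
  exact Subtype.ext this

namespace Alg

variable (W : Wt ℚ≥0)

/-- back to honest functions -/
noncomputable def toFn (x : Alg W) : QPos → ℂ := fun t => ev W (toNN t) x / ((W.w (toNN t) : ℝ) : ℂ)

theorem toFn_add (x y : Alg W) : toFn W (x + y) = toFn W x + toFn W y := by
  funext t
  simp only [toFn, map_add, Pi.add_apply, add_div]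

theorem toFn_mem (x : Alg W) : toFn W x ∈ Ell1 (fun t => W.w (toNN t)) := by
  change Summable fun t => ‖toFn W x t‖ * W.w (toNN t)
  have h1 : Summable (fun s : ℚ≥0 => ‖ev W s x‖) := V1_summable x
  have h2 := h1.comp_injective toNN_inj
  refine h2.congr (fun t => ?_)
  simp only [Function.comp, toFn]
  rw [norm_div, Complex.norm_real, Real.norm_of_nonneg (W.pos _).le, div_mul_cancel₀ _ (W.pos _).ne']

theorem ev_mul_aux (x y : V1 ℚ≥0) (t : ℚ≥0) : (∑' p : ℚ≥0 × ℚ≥0, if t = p.1 + p.2 then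
      x p.1 * y p.2 * ((W.κ p.1 p.2 : ℝ) : ℂ) else 0) = (W.mulL x y) t := by
  have h1 := (W.hasSum_mulL x y).mapL (lp.evalCLM ℂ (fun _ : ℚ≥0 => ℂ) 1 t)
  have h3 := h1.tsum_eq
  change _ = (W.mulL x y) t at h3
  rw [← h3]
  apply tsum_congr
  intro p
  change _ = ((x p.1 * y p.2 * ((W.κ p.1 p.2 : ℝ) : ℂ)) • (bv (p.1 + p.2) : V1 ℚ≥0)) t
  rw [lp.coeFn_smul, Pi.smul_apply, bv_apply]
  split_ifs <;> simp

theorem ev_mul_eq (x y : Alg W) (t : ℚ≥0) : (∑' p : ℚ≥0 × ℚ≥0, if t = p.1 + p.2 then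
      ev W p.1 x * ev W p.2 y * ((W.κ p.1 p.2 : ℝ) : ℂ) else 0) = ev W t (x * y) :=
  ev_mul_aux W x y t

theorem conv_toFn (x y : Alg W) (hx : ev W 0 x = 0) (hy : ev W 0 y = 0) :
    conv (toFn W x) (toFn W y) = toFn W (x * y) := by
  classical
  funext t
  have h3 : (∑' p : ℚ≥0 × ℚ≥0, if toNN t = p.1 + p.2 then
      ev W p.1 x * ev W p.2 y * ((W.κ p.1 p.2 : ℝ) : ℂ) else 0) = ev W (toNN t) (x * y) :=
    ev_mul_eq W x y (toNN t)
  have h4 : ev W (toNN t) (x * y) = ev W (toNN t) (x * y) := rfl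
  unfold toFn conv
  rw [h4, ← h3, ← tsum_div_const]
  let g : {p : QPos × QPos // p.1.1 + p.2.1 = t.1} → ℚ≥0 × ℚ≥0 := fun p => (toNN p.1.1, toNN p.1.2)
  have hg : Function.Injective g := by
    intro p q hpq
    have h5 := toNN_inj (congrArg Prod.fst hpq)
    have h6 := toNN_inj (congrArg Prod.snd hpq)
    exact Subtype.ext (Prod.ext h5 h6)
  have key := hg.tsum_eq (f := fun p : ℚ≥0 × ℚ≥0 =>
    (if toNN t = p.1 + p.2 then ev W p.1 x * ev W p.2 y * ((W.κ p.1 p.2 : ℝ) : ℂ) else 0)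
      / ((W.w (toNN t) : ℝ) : ℂ)) ?_
  · rw [← key]
    apply tsum_congr
    intro p
    have hp : toNN t = toNN p.1.1 + toNN p.1.2 := by
      apply NNRat.coe_injective
      rw [NNRat.coe_add]
      exact p.2.symm
    simp only [g]
    rw [if_pos hp, Wt.κ, ← hp]
    have a1 : ((W.w (toNN p.1.1) : ℝ) : ℂ) ≠ 0 := by exact_mod_cast (W.pos _).ne'
    have a2 : ((W.w (toNN p.1.2) : ℝ) : ℂ) ≠ 0 := by exact_mod_cast (W.pos _).ne'
    have a3 : ((W.w (toNN t) : ℝ) : ℂ) ≠ 0 := by exact_mod_cast (W.pos _).ne'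
    push_cast
    field_simp
  · intro p hp
    rw [Function.mem_support] at hp
    have h7 : toNN t = p.1 + p.2 := by
      by_contra h
      rw [if_neg h] at hp
      simp at hp
    rw [if_pos h7] at hp
    have h8 : ev W p.1 x ≠ 0 := by
      intro h; rw [h] at hp; simp at hp
    have h9 : ev W p.2 y ≠ 0 := by
      intro h; rw [h] at hp; simp at hp
    have h10 : 0 < p.1 := by
      rw [pos_iff_ne_zero]; intro h; rw [h] at h8; exact h8 hx
    have h11 : 0 < p.2 := by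
      rw [pos_iff_ne_zero]; intro h; rw [h] at h9; exact h9 hy
    refine ⟨⟨(⟨p.1, h10⟩, ⟨p.2, h11⟩), ?_⟩, ?_⟩
    · have := congrArg (fun q : ℚ≥0 => (q : ℚ)) h7
      simp only [NNRat.coe_add] at this
      exact this.symm
    · rfl

/-- from honest functions to the algebra -/
theorem exists_of_mem (f : QPos → ℂ) (hf : f ∈ Ell1 (fun t => W.w (toNN t))) :
    ∃ x : Alg W, ev W 0 x = 0 ∧ toFn W x = f := by
  classical
  let F : ℚ≥0 → ℂ := fun s => if h : 0 < s then f ⟨s, h⟩ * ((W.w s : ℝ) : ℂ) else 0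
  have hF : Summable (fun s => ‖F s‖) := by
    have h1 : Summable (fun t : QPos => ‖F (toNN t)‖) := by
      refine Summable.congr hf (fun t => ?_)
      simp only [F]
      rw [dif_pos (toNN_pos t), norm_mul, Complex.norm_real, Real.norm_of_nonneg (W.pos _).le]
      rfl
    refine (Function.Injective.summable_iff toNN_inj ?_).mp h1
    intro s hs
    have : ¬ 0 < s := by
      intro h
      exact hs ⟨⟨s, h⟩, rfl⟩
    simp only [F]
    rw [dif_neg this, norm_zero]
  let x : V1 ℚ≥0 := ⟨F, memℓp_gen (by simpa using hF)⟩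
  refine ⟨x, ?_, ?_⟩
  · change F 0 = 0
    simp [F]
  · funext t
    change F (toNN t) / _ = _
    simp only [F]
    rw [dif_pos (toNN_pos t), mul_div_cancel_right₀]
    · rfl
    · exact_mod_cast (W.pos _).ne'

theorem gen_two (hle : ∀ s, W.w s ≤ 1)
    (hcont : ∀ t : ℚ≥0, 0 < t → ∃ η : ℚ≥0, 0 < η ∧ ∀ x : ℚ≥0, x < η → x < t →
      W.w (t - x) ≤ 2 * W.w t) :
    SumOfTwoProducts (Ell1 (fun t => W.w (toNN t))) conv := by
  intro f hf
  obtain ⟨a, ha0, ha⟩ := exists_of_mem W f hf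
  obtain ⟨b₁, c₁, b₂, c₂, hb₁, hc₁, hb₂, hc₂, h⟩ := alg_main W hle hcont a ha0
  refine ⟨toFn W b₁, toFn_mem W b₁, toFn W c₁, toFn_mem W c₁, toFn W b₂, toFn_mem W b₂,
    toFn W c₂, toFn_mem W c₂, ?_⟩
  rw [conv_toFn W b₁ c₁ hb₁ hc₁, conv_toFn W b₂ c₂ hb₂ hc₂, ← toFn_add, ← h, ha]

theorem conv_mem {f g : QPos → ℂ} (hf : f ∈ Ell1 (fun t => W.w (toNN t)))
    (hg : g ∈ Ell1 (fun t => W.w (toNN t))) : conv f g ∈ Ell1 (fun t => W.w (toNN t)) := by
  obtain ⟨x, hx0, hx⟩ := exists_of_mem W f hf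
  obtain ⟨y, hy0, hy⟩ := exists_of_mem W g hg
  rw [← hx, ← hy, conv_toFn W x y hx0 hy0]
  exact toFn_mem W _

end Alg

theorem Ell1_add {ω : QPos → ℝ} (hω : ∀ t, 0 ≤ ω t) {f g : QPos → ℂ} (hf : f ∈ Ell1 ω)
    (hg : g ∈ Ell1 ω) : f + g ∈ Ell1 ω := by
  have h := Summable.add hf hg
  refine Summable.of_nonneg_of_le (fun t => mul_nonneg (norm_nonneg _) (hω t)) (fun t => ?_) h
  rw [← add_mul]
  exact mul_le_mul_of_nonneg_right (norm_add_le _ _) (hω t)

theorem Ell1_smul {ω : QPos → ℝ} (c : ℂ) {f : QPos → ℂ} (hf : f ∈ Ell1 ω) : c • f ∈ Ell1 ω := by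
  have h := Summable.mul_left ‖c‖ hf
  refine Summable.congr h (fun t => ?_)
  rw [Pi.smul_apply, norm_smul, mul_assoc]

theorem square_eq_of_two {I : Type} {A : Set (I → ℂ)} {mul : (I → ℂ) → (I → ℂ) → (I → ℂ)}
    (h : SumOfTwoProducts A mul) (h0 : (0 : I → ℂ) ∈ A) (hadd : ∀ f ∈ A, ∀ g ∈ A, f + g ∈ A)
    (hsmul : ∀ (c : ℂ), ∀ f ∈ A, c • f ∈ A) (hmul : ∀ f ∈ A, ∀ g ∈ A, mul f g ∈ A) :
    SquareEqSelf A mul := by
  apply Set.Subset.antisymm
  · intro f hf
    refine Submodule.span_induction ?_ h0 (fun x y _ _ hx hy => hadd x hx y hy)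
      (fun c x _ hx => hsmul c x hx) hf
    rintro x ⟨b, hb, c, hc, rfl⟩
    exact hmul b hb c hc
  · intro f hf
    obtain ⟨b₁, hb₁, c₁, hc₁, b₂, hb₂, c₂, hc₂, rfl⟩ := h f hf
    exact Submodule.add_mem _ (Submodule.subset_span ⟨b₁, hb₁, c₁, hc₁, rfl⟩)
      (Submodule.subset_span ⟨b₂, hb₂, c₂, hc₂, rfl⟩)

/-- the constant weight -/
noncomputable def W1 : Wt ℚ≥0 where
  w := fun _ => 1
  pos := fun _ => one_pos
  zero := rfl
  submul := fun _ _ => by norm_num

/-- the Gaussian weight -/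
noncomputable def W2 : Wt ℚ≥0 where
  w := fun s => Real.exp (-(((s.1 : ℚ) : ℝ)) ^ 2)
  pos := fun _ => Real.exp_pos _
  zero := by
    have : ((0 : ℚ≥0).1 : ℚ) = 0 := rfl
    rw [this]; simp
  submul := fun s t => by
    rw [← Real.exp_add]
    apply Real.exp_le_exp.mpr
    have h : ((s + t).1 : ℚ) = s.1 + t.1 := rfl
    rw [h]
    push_cast
    have hs : (0 : ℝ) ≤ ((s.1 : ℚ) : ℝ) := by exact_mod_cast s.2
    have ht : (0 : ℝ) ≤ ((t.1 : ℚ) : ℝ) := by exact_mod_cast t.2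
    nlinarith

theorem W2_cont (t : ℚ≥0) (ht : 0 < t) : ∃ η : ℚ≥0, 0 < η ∧ ∀ x : ℚ≥0, x < η → x < t →
    W2.w (t - x) ≤ 2 * W2.w t := by
  have ht0 : (0 : ℝ) < ((t.1 : ℚ) : ℝ) := by exact_mod_cast ht
  -- η = 1/(4 t)
  refine ⟨1 / (4 * t), by positivity, fun x hx hxt => ?_⟩
  have h1 : (((t - x).1 : ℚ) : ℝ) = ((t.1 : ℚ) : ℝ) - ((x.1 : ℚ) : ℝ) := by
    have : ((t - x : ℚ≥0) : ℚ) = (t : ℚ) - (x : ℚ) := NNRat.coe_sub hxt.le
    have h2 : ((t - x).1 : ℚ) = t.1 - x.1 := this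
    rw [h2]; push_cast; ring
  have h3 : ((x.1 : ℚ) : ℝ) * ((t.1 : ℚ) : ℝ) ≤ 1 / 4 := by
    have h4 : x * t ≤ 1 / 4 := by
      have h5 : x * (4 * t) ≤ 1 := by
        have := (lt_div_iff₀ (by positivity : 0 < 4 * t)).mp hx
        exact this.le
      rw [le_div_iff₀ (by norm_num)]
      calc x * t * 4 = x * (4 * t) := by ring
        _ ≤ 1 := h5
    have h6 : ((x * t : ℚ≥0) : ℚ) ≤ ((1 / 4 : ℚ≥0) : ℚ) := NNRat.coe_le_coe.mpr h4
    push_cast at h6
    have h7 : (x.1 * t.1 : ℚ) ≤ 1 / 4 := h6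
    have h8 : (((x.1 * t.1 : ℚ)) : ℝ) ≤ ((1 / 4 : ℚ) : ℝ) := Rat.cast_le.mpr h7
    rw [Rat.cast_mul] at h8
    refine h8.trans (le_of_eq ?_)
    norm_num
  change Real.exp (-(((t - x).1 : ℚ) : ℝ) ^ 2) ≤ 2 * Real.exp (-((t.1 : ℚ) : ℝ) ^ 2)
  rw [h1]
  have h7 : -(((t.1 : ℚ) : ℝ) - ((x.1 : ℚ) : ℝ)) ^ 2 ≤ 1 / 2 + -((t.1 : ℚ) : ℝ) ^ 2 := by
    nlinarith [sq_nonneg ((x.1 : ℚ) : ℝ)]
  calc Real.exp (-(((t.1 : ℚ) : ℝ) - ((x.1 : ℚ) : ℝ)) ^ 2)
      ≤ Real.exp (1 / 2 + -((t.1 : ℚ) : ℝ) ^ 2) := Real.exp_le_exp.mpr h7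
    _ = Real.exp (1 / 2) * Real.exp (-((t.1 : ℚ) : ℝ) ^ 2) := Real.exp_add _ _
    _ ≤ 2 * Real.exp (-((t.1 : ℚ) : ℝ) ^ 2) := by
        have : Real.exp (1 / 2) ≤ 2 := by
          have h8 := Real.exp_one_lt_d9
          have h9 : Real.exp (1 / 2) * Real.exp (1 / 2) = Real.exp 1 := by
            rw [← Real.exp_add]; norm_num
          nlinarith [Real.exp_pos (1 / 2)]
        gcongr

theorem two_W1 : SumOfTwoProducts (Ell1 (fun _ => 1)) conv :=
  Alg.gen_two W1 (fun _ => le_rfl) (fun t _ => ⟨1, one_pos, fun x _ _ => by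
    change (1 : ℝ) ≤ 2 * 1
    norm_num⟩)

theorem two_W2 : SumOfTwoProducts (Ell1 (fun t => Real.exp (-(t.1 : ℝ) ^ 2))) conv :=
  Alg.gen_two W2 (fun s => by
    change Real.exp _ ≤ 1
    rw [Real.exp_le_one_iff]
    nlinarith [sq_nonneg ((s.1 : ℚ) : ℝ)]) W2_cont

/-- extension by zero from `(0,1]` to `ℚ⁺` -/
noncomputable def extd (f : QUnit → ℂ) : QPos → ℂ := fun t =>
  if h : t.1 ≤ 1 then f ⟨t.1, t.2, h⟩ else 0

/-- restriction from `ℚ⁺` to `(0,1]` -/
def rest (f : QPos → ℂ) : QUnit → ℂ := fun t => f ⟨t.1, t.2.1⟩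

theorem rest_extd (f : QUnit → ℂ) : rest (extd f) = f := by
  funext t
  simp only [rest, extd]
  rw [dif_pos t.2.2]

theorem rest_conv (f g : QPos → ℂ) : rest (conv f g) = convUnit (rest f) (rest g) := by
  funext t
  simp only [rest, conv, convUnit]
  let e : {p : QUnit × QUnit // p.1.1 + p.2.1 = t.1} ≃
      {p : QPos × QPos // p.1.1 + p.2.1 = (⟨t.1, t.2.1⟩ : QPos).1} :=
    { toFun := fun p => ⟨(⟨p.1.1.1, p.1.1.2.1⟩, ⟨p.1.2.1, p.1.2.2.1⟩), p.2⟩
      invFun := fun p => ⟨(⟨p.1.1.1, p.1.1.2, by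
          have h1 := p.1.2.2
          have h2 := t.2.2
          have h3 := p.2
          simp only at h3
          linarith⟩, ⟨p.1.2.1, p.1.2.2, by
          have h1 := p.1.1.2
          have h2 := t.2.2
          have h3 := p.2
          simp only at h3
          linarith⟩), p.2⟩
      left_inv := fun p => rfl
      right_inv := fun p => rfl }
  exact (e.tsum_eq _).symm

theorem rest_mem {f : QPos → ℂ} (hf : f ∈ Ell1 (fun _ => 1)) : rest f ∈ Ell1Unit := by
  have h1 : Summable (fun t : QPos => ‖f t‖) := by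
    refine Summable.congr hf (fun t => ?_)
    rw [mul_one]
  have : Function.Injective (fun t : QUnit => (⟨t.1, t.2.1⟩ : QPos)) := by
    intro s t h
    have h' := congrArg (fun q : QPos => q.1) h
    exact Subtype.ext h'
  exact h1.comp_injective this

theorem extd_mem {f : QUnit → ℂ} (hf : f ∈ Ell1Unit) : extd f ∈ Ell1 (fun _ => 1) := by
  change Summable fun t => ‖extd f t‖ * 1
  simp only [mul_one]
  have hinj : Function.Injective (fun t : QUnit => (⟨t.1, t.2.1⟩ : QPos)) := by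
    intro s t h
    have h' := congrArg (fun q : QPos => q.1) h
    exact Subtype.ext h'
  refine (Function.Injective.summable_iff hinj ?_).mp ?_
  · intro s hs
    have : ¬ s.1 ≤ 1 := by
      intro h
      exact hs ⟨⟨s.1, s.2, h⟩, rfl⟩
    simp only [extd]
    rw [dif_neg this, norm_zero]
  · refine Summable.congr hf (fun t => ?_)
    simp only [Function.comp, extd]
    rw [dif_pos t.2.2]

theorem two_unit : SumOfTwoProducts Ell1Unit convUnit := by
  intro f hf
  obtain ⟨b₁, hb₁, c₁, hc₁, b₂, hb₂, c₂, hc₂, h⟩ := two_W1 (extd f) (extd_mem hf)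
  refine ⟨rest b₁, rest_mem hb₁, rest c₁, rest_mem hc₁, rest b₂, rest_mem hb₂, rest c₂,
    rest_mem hc₂, ?_⟩
  rw [← rest_conv, ← rest_conv, ← rest_extd f, h]
  rfl

theorem sq_W1 : SquareEqSelf (Ell1 (fun _ => 1)) conv :=
  square_eq_of_two two_W1
    (by change Summable _; simp)
    (fun _ hf _ hg => Ell1_add (fun _ => zero_le_one) hf hg)
    (fun c _ hf => Ell1_smul c hf)
    (fun _ hf _ hg => Alg.conv_mem W1 hf hg)

theorem sq_W2 : SquareEqSelf (Ell1 (fun t => Real.exp (-(t.1 : ℝ) ^ 2))) conv :=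
  square_eq_of_two two_W2
    (by change Summable _; simp)
    (fun _ hf _ hg => Ell1_add (fun _ => (Real.exp_pos _).le) hf hg)
    (fun c _ hf => Ell1_smul c hf)
    (fun _ hf _ hg => Alg.conv_mem W2 hf hg)

theorem sq_unit : SquareEqSelf Ell1Unit convUnit :=
  square_eq_of_two two_unit
    (by change Summable _; simp)
    (fun f hf g hg => by
      have h := Summable.add hf hg
      refine Summable.of_nonneg_of_le (fun t => norm_nonneg _) (fun t => ?_) h
      exact norm_add_le _ _)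
    (fun c f hf => by
      have h := Summable.mul_left ‖c‖ hf
      refine Summable.congr h (fun t => ?_)
      rw [Pi.smul_apply, norm_smul])
    (fun f hf g hg => by
      rw [← rest_extd f, ← rest_extd g, ← rest_conv]
      exact rest_mem (Alg.conv_mem W1 (extd_mem hf) (extd_mem hg)))


/-! ### The result -/

/-- In each of the algebras `ℓ¹(ℚ⁺)`, `ℓ¹(ℚ⁺, exp(-t²))`, `ℓ¹(ℚ⁺ ∩ (0,1])`, every element is a sum of
two products, and the algebra equals the linear span of its products. -/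
theorem result :
    (SumOfTwoProducts (Ell1 (fun _ => 1)) conv ∧ SquareEqSelf (Ell1 (fun _ => 1)) conv) ∧
    (SumOfTwoProducts (Ell1 (fun t => Real.exp (-(t.1 : ℝ) ^ 2))) conv ∧
      SquareEqSelf (Ell1 (fun t => Real.exp (-(t.1 : ℝ) ^ 2))) conv) ∧
    (SumOfTwoProducts Ell1Unit convUnit ∧ SquareEqSelf Ell1Unit convUnit) :=
  ⟨⟨two_W1, sq_W1⟩, ⟨two_W2, sq_W2⟩, ⟨two_unit, sq_unit⟩⟩

end Pool.Agent.Results.MP_7607f9_an.TwoProducts
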